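import Mathlib

set_option autoImplicit false

/-! # Chains of consecutive primes -/

namespace Pool.Agent.TH29.GO

/-- the number of primes below the next prime -/
theorem count_nextR {p p' : ℕ} (hp : p.Prime) (h : p < p')
    (hno : ∀ s, p < s → s < p' → ¬ s.Prime) :
    Nat.count Nat.Prime p' = Nat.count Nat.Prime p + 1 := by
  have h1 : ∀ t, p + 1 + t ≤ p' → Nat.count Nat.Prime (p + 1 + t) = Nat.count Nat.Prime p + 1 := by
    intro t
    induction t with
    | zero =>
      intro _
      rw [Nat.add_zero, Nat.count_succ, if_pos hp]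
    | succ t ih =>
      intro ht
      rw [← add_assoc, Nat.count_succ, ih (by omega), if_neg (hno _ (by omega) (by omega))]
  have h2 := h1 (p' - (p + 1)) (by omega)
  rwa [show p + 1 + (p' - (p + 1)) = p' by omega] at h2

/-- consecutive primes in the sequence of the primes -/
theorem nth_chain {k : ℕ} {ϖ : ℕ → ℕ} (hp : ∀ i, i ≤ k → (ϖ i).Prime)
    (hlt : ∀ i, i < k → ϖ i < ϖ (i + 1))
    (hno : ∀ i, i < k → ∀ s, ϖ i < s → s < ϖ (i + 1) → ¬ s.Prime) :
    ∀ i, i ≤ k → Nat.nth Nat.Prime (Nat.count Nat.Prime (ϖ 0) + i) = ϖ i := by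
  intro i
  induction i with
  | zero =>
    intro _
    rw [Nat.add_zero]
    exact Nat.nth_count (hp 0 (Nat.zero_le _))
  | succ i ih =>
    intro hi
    have h1 := ih (by omega)
    have h3 := count_nextR (hp i (by omega)) (hlt i (by omega)) (hno i (by omega))
    have h4 : Nat.count Nat.Prime (ϖ i) = Nat.count Nat.Prime (ϖ 0) + i := by
      rw [← h1, Nat.count_nth_of_infinite Nat.infinite_setOfPred_prime]
    rw [← add_assoc, ← h4, ← h3]
    exact Nat.nth_count (hp (i + 1) hi)

end Pool.Agent.TH29.GO
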