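import Pool.Agent.TH29.GO.Force
import Pool.Agent.TH29.GO.Chain
import Pool.Agent.H362R2.RQ.Shapes

set_option autoImplicit false

/-!
# Order patterns of consecutive prime gaps of record size
-/

namespace Pool.Agent.TH29.GO

open Finset Filter
open Pool.Agent.H362R2.RQ
open Pool.Agent.H378R2 (yy)
open Pool.Agent.H256R2.SC (ff)
open Pool.Agent.H312R2.RG.C3 (ff_tendsto ff_small)

/-- the `i`-th gap after the prime number `n` -/
noncomputable def gp (n i : ℕ) : ℝ := (Nat.nth Nat.Prime (n + i + 1) : ℝ) - Nat.nth Nat.Prime (n + i)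

/-- the property of the index `n` in the theorem on record gaps -/
def RecProp (k : ℕ) (σ : ℕ → ℕ) (A c H X : ℝ) (q a n : ℕ) : Prop :=
  X < (Nat.nth Nat.Prime n : ℝ) ∧ (Nat.nth Nat.Prime (n + k) : ℝ) ≤ 4 * X ∧
  (Nat.nth Nat.Prime (n + k) : ℝ) ≤ (Nat.nth Nat.Prime n : ℝ) + H ∧
  (∀ i, i ≤ k → Nat.nth Nat.Prime (n + i) ≡ a [MOD q]) ∧
  (∀ i, i < k → c * H ≤ gp n i) ∧
  ∀ i j, i < k → j < k → σ i < σ j → A * gp n i ≤ gp n j

theorem record_of (h : StRQ) {k : ℕ} {σ : ℕ → ℕ} (hF : ∀ c₀, 1 ≤ c₀ → Forces c₀ k σ) (A : ℝ) :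
    ∃ c : ℝ, 0 < c ∧ ∀ q a : ℕ, Squarefree q → a.Coprime q → ∀ᶠ X : ℝ in atTop, ∀ H : ℝ,
      Real.log X ≤ H → H ≤ c * ff X →
      X ^ (7 / 8 : ℝ) ≤ ({n : ℕ | RecProp k σ A c H X q a n}.ncard : ℝ) := by
  classical
  obtain ⟨η, hη, hmain⟩ := h
  obtain ⟨c₀, hc₀⟩ := exists_nat_gt (1 / η)
  have hc₀1 : 1 ≤ c₀ := by
    have h1 : (0 : ℝ) < c₀ := lt_trans (by positivity) hc₀
    exact_mod_cast h1
  have hc₀η : 1 ≤ (c₀ : ℝ) * η := by
    have := hc₀.le
    rwa [div_le_iff₀ hη] at this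
  obtain ⟨T, hT1, hT⟩ := hF c₀ hc₀1
  obtain ⟨K, hTK, c1, hc1, hX1'⟩ := hmain T hT1
  have hK0 : 0 < K := by omega
  obtain ⟨B, hBA⟩ := exists_nat_gt |A|
  have hB1 : 1 ≤ B := by
    have h1 : (0 : ℝ) < B := lt_of_le_of_lt (abs_nonneg A) hBA
    exact_mod_cast h1
  have hAB : A ≤ B := (le_abs_self A).trans hBA.le
  set b : ℕ → ℤ := fun e => ((8 * B) ^ e : ℕ) with hb
  have hbS : Scale b := by
    constructor
    · intro e
      simp only [hb]
      exact_mod_cast Nat.one_le_pow _ _ (by omega)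
    · intro e
      simp only [hb]
      have : 8 * (8 * B) ^ e ≤ (8 * B) ^ (e + 1) := by
        rw [pow_succ, mul_comm]
        exact Nat.mul_le_mul_left _ (by omega)
      exact_mod_cast this
  obtain ⟨off, hinj, -, hforce⟩ := hT K hK0 b hbS 1 (fun e => one_dvd _)
  obtain ⟨D, hDdef⟩ : ∃ D : ℝ, D = ∑ x : Fin T × Fin K, |(off x.1 x.2 : ℝ)| + 1 := ⟨_, rfl⟩
  have hD1 : 1 ≤ D := by
    rw [hDdef]
    have : 0 ≤ ∑ x : Fin T × Fin K, |(off x.1 x.2 : ℝ)| := Finset.sum_nonneg fun _ _ => abs_nonneg _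
    linarith
  have hD0 : 0 < D := by linarith
  have hoffD : ∀ g i, |(off g i : ℝ)| ≤ D := by
    intro g i
    rw [hDdef]
    have := Finset.single_le_sum (f := fun x : Fin T × Fin K => |(off x.1 x.2 : ℝ)|)
      (fun _ _ => abs_nonneg _) (Finset.mem_univ (g, i))
    simp only at this
    linarith
  obtain ⟨ε, hε⟩ : ∃ ε : ℝ, ε = 1 / (64 * D) := ⟨_, rfl⟩
  have hεpos : 0 < ε := by rw [hε]; positivity
  obtain ⟨c, hcdef⟩ : ∃ c : ℝ, c = min c1 (1 / (16 * D)) := ⟨_, rfl⟩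
  have hc : 0 < c := by rw [hcdef]; exact lt_min hc1 (by positivity)
  have hcc1 : c ≤ c1 := by rw [hcdef]; exact min_le_left _ _
  have hcD : c ≤ 1 / (16 * D) := by rw [hcdef]; exact min_le_right _ _
  refine ⟨c, hc, ?_⟩
  intro q a hqsf haq
  have hq0 : 0 < q := Nat.pos_of_ne_zero hqsf.ne_zero
  obtain ⟨X1, hX1⟩ := hX1' q
  obtain ⟨Y0, hY0⟩ := Filter.eventually_atTop.1 (exists_prime_mod q hq0 a haq ε hεpos)
  filter_upwards [eventually_ge_atTop X1, ev_bad c hc, ff_small (c + 1) (by linarith),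
    Real.tendsto_log_atTop.eventually_ge_atTop (4 * |Y0| + 4), eventually_ge_atTop (1 : ℝ),
    ff_tendsto.eventually_gt_atTop 0]
    with X hXX1 hbadX hsmall hlX hX1' hffpos
  intro H hlH hHc
  have hH4 : 4 * |Y0| + 4 ≤ H := hlX.trans hlH
  have hHpos : 0 < H := by
    have := abs_nonneg Y0
    linarith
  have hHX : H ≤ X := by
    have : (c + 1) * ff X = c * ff X + ff X := by ring
    linarith
  obtain ⟨s0, hs0⟩ : ∃ s0 : ℝ, s0 = H / (8 * D) := ⟨_, rfl⟩
  have hs0pos : 0 < s0 := by rw [hs0]; positivity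
  have hs0D : s0 * D = H / 8 := by rw [hs0]; field_simp
  have hs0H : s0 ≤ H / 8 := by
    have : s0 * 1 ≤ s0 * D := mul_le_mul_of_nonneg_left hD1 hs0pos.le
    linarith
  have hεs : ε * H = s0 / 8 := by rw [hε, hs0]; field_simp; norm_num
  have hcs : 2 * (c * H) ≤ s0 := by
    have h1 : c * H ≤ 1 / (16 * D) * H := mul_le_mul_of_nonneg_right hcD hHpos.le
    have h2 : 1 / (16 * D) * H = s0 / 2 := by rw [hs0]; field_simp; norm_num
    linarith
  -- the tuple
  set col := cmod K T hT1 with hcol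
  set o : Fin K → ℤ := fun j => off (col j) j with ho
  have hoinj : Function.Injective o := by
    intro j j' hjj
    have h1 : ((col j, j) : Fin T × Fin K) = (col j', j') := hinj hjj
    exact congrArg Prod.snd h1
  set y : Fin K → ℝ := fun j => H / 2 + s0 * (o j : ℝ) with hy
  have hso : ∀ j, |s0 * (o j : ℝ)| ≤ H / 8 := by
    intro j
    rw [abs_mul, abs_of_pos hs0pos, ← hs0D]
    exact mul_le_mul_of_nonneg_left (hoffD _ _) hs0pos.le
  have hylow : ∀ j, H / 4 ≤ y j := by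
    intro j
    have h1 := abs_le.1 (hso j)
    simp only [hy]
    linarith
  have hyup : ∀ j, y j ≤ 5 * H / 8 := by
    intro j
    have h1 := abs_le.1 (hso j)
    simp only [hy]
    linarith
  have hex : ∀ j, ∃ p : ℕ, p.Prime ∧ p ≡ a [MOD q] ∧ y j < p ∧ (p : ℝ) ≤ y j + s0 / 8 := by
    intro j
    have h1 := hylow j
    obtain ⟨p, hp, hpa, hp1, hp2⟩ := hY0 (y j) (by
      have := le_abs_self Y0
      linarith)
    refine ⟨p, hp, hpa, hp1, hp2.trans ?_⟩
    have h2 : ε * y j ≤ ε * H := mul_le_mul_of_nonneg_left (by linarith [hyup j]) hεpos.le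
    linarith
  choose t htp hta htl htu using hex
  have htdiff : ∀ j j', s0 * ((o j' : ℝ) - o j) - s0 / 8 ≤ (t j' : ℝ) - t j ∧
      (t j' : ℝ) - t j ≤ s0 * ((o j' : ℝ) - o j) + s0 / 8 := by
    intro j j'
    have h1 := htl j
    have h2 := htu j
    have h3 := htl j'
    have h4 := htu j'
    simp only [hy] at h1 h2 h3 h4
    constructor <;> nlinarith
  have htlt : ∀ j j', o j < o j' → t j < t j' := by
    intro j j' hjj
    have h1 := (htdiff j j').1
    have h2 : (1 : ℝ) ≤ (o j' : ℝ) - o j := by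
      have : (o j + 1 : ℤ) ≤ o j' := hjj
      have h3 : ((o j + 1 : ℤ) : ℝ) ≤ (o j' : ℝ) := by exact_mod_cast this
      push_cast at h3
      linarith
    have h3 : s0 * 1 ≤ s0 * ((o j' : ℝ) - o j) := mul_le_mul_of_nonneg_left h2 hs0pos.le
    have h4 : (0 : ℝ) < (t j' : ℝ) - t j := by linarith
    have h5 : (t j : ℝ) < t j' := by linarith
    exact_mod_cast h5
  have holt : ∀ j j', t j < t j' → o j < o j' := by
    intro j j' hjj
    by_contra hcon
    rcases (not_lt.1 hcon).lt_or_eq with h1 | h1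
    · have := htlt _ _ h1
      omega
    · have := hoinj h1
      rw [this] at hjj
      exact lt_irrefl _ hjj
  have htinj : Function.Injective t := by
    intro j j' hjj
    rcases lt_trichotomy (o j) (o j') with h1 | h1 | h1
    · have := htlt _ _ h1
      omega
    · exact hoinj h1
    · have := htlt _ _ h1
      omega
  have htH : ∀ j, (t j : ℝ) ≤ H := by
    intro j
    have h1 := htu j
    have h2 := hyup j
    linarith
  have htyy : ∀ j, yy X < t j := by
    intro j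
    have h0 : 0 ≤ Real.log X := by
      have := abs_nonneg Y0
      linarith
    have h1 : (yy X : ℝ) ≤ Real.log X / 1000 := Nat.floor_le (by positivity)
    have h4 := hylow j
    have h5 := htl j
    have h6 : (yy X : ℝ) < t j := by linarith
    exact_mod_cast h6
  -- the exceptional set
  set Good : Set ℕ := {n : ℕ | RecProp k σ A c H X q a n} with hGood
  have hfinG : Good.Finite := by
    apply (Set.finite_Iic ⌊4 * X⌋₊).subset
    intro n hn
    rw [Set.mem_Iic]
    refine Nat.le_floor (le_trans ?_ hn.2.1)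
    have h2 : n + k ≤ Nat.nth Nat.Prime (n + k) :=
      (Nat.nth_strictMono Nat.infinite_setOfPred_prime).le_apply
    exact_mod_cast (Nat.le_add_right n k).trans h2
  by_contra hlt
  push Not at hlt
  set G0 : Finset ℕ := hfinG.toFinset with hG0
  have hG0card : (G0.card : ℝ) < X ^ (7 / 8 : ℝ) := by
    rw [hG0, ← Set.ncard_eq_toFinset_card Good hfinG]
    exact hlt
  set bad : Finset ℕ := G0.biUnion (fun g => Icc (Nat.nth Nat.Prime g - ⌊H⌋₊) (Nat.nth Nat.Prime g))
    with hbaddef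
  have hbadcard : (bad.card : ℝ) ≤ X ^ (9 / 10 : ℝ) := by
    have h1 : bad.card ≤ G0.card * (⌊H⌋₊ + 1) := by
      refine Finset.card_biUnion_le.trans ?_
      have h2 : ∀ g ∈ G0, (Icc (Nat.nth Nat.Prime g - ⌊H⌋₊) (Nat.nth Nat.Prime g)).card ≤
          ⌊H⌋₊ + 1 := by
        intro g _
        rw [Nat.card_Icc]
        omega
      exact (Finset.sum_le_card_nsmul _ _ _ h2).trans (le_of_eq (by rw [smul_eq_mul]))
    have h3 : ((⌊H⌋₊ + 1 : ℕ) : ℝ) ≤ c * ff X + 1 := by
      push_cast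
      have := Nat.floor_le hHpos.le
      linarith
    calc (bad.card : ℝ) ≤ ((G0.card * (⌊H⌋₊ + 1) : ℕ) : ℝ) := by exact_mod_cast h1
      _ = (G0.card : ℝ) * ((⌊H⌋₊ + 1 : ℕ) : ℝ) := by push_cast; ring
      _ ≤ X ^ (7 / 8 : ℝ) * (c * ff X + 1) := by
          apply mul_le_mul hG0card.le h3 (Nat.cast_nonneg _) (Real.rpow_nonneg (by linarith) _)
      _ ≤ _ := hbadX
  have hHc1 : H ≤ c1 * ff X := hHc.trans (mul_le_mul_of_nonneg_right hcc1 hffpos.le)
  obtain ⟨n, hn1, hn2, hn3, ⟨G, hG1, hG2⟩, hn4, hn5⟩ := hX1 X hXX1 t htinj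
    (fun j => ⟨htp j, htyy j, (htH j).trans hHc1⟩) col (fib_cmod K T hT1 hTK) bad hbadcard
  have hqn : q ∣ n := dvd_of_primes q n hqsf fun p hp hpq => hn5 p hp (Nat.le_of_dvd hq0 hpq)
  -- the hit positions
  set J : Finset (Fin K) := univ.filter (fun j => (n + t j).Prime) with hJ
  have hJm : ∀ j, j ∈ J ↔ (n + t j).Prime := fun j => by simp [hJ]
  set P : Finset ℤ := J.image o with hP
  have hchoice : ∀ d : Fin T, ∃ j : Fin K, d ∈ G → col j = d ∧ (n + t j).Prime := by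
    intro d
    by_cases hd : d ∈ G
    · obtain ⟨j, hj⟩ := hG2 d hd
      exact ⟨j, fun _ => hj⟩
    · exact ⟨⟨0, hK0⟩, fun hh => absurd hh hd⟩
  choose cc hcc using hchoice
  have hTG : T ≤ c₀ * G.card := by
    have h1 : (T : ℝ) ≤ (c₀ : ℝ) * G.card := by
      calc (T : ℝ) = 1 * T := (one_mul _).symm
        _ ≤ ((c₀ : ℝ) * η) * T := mul_le_mul_of_nonneg_right hc₀η (Nat.cast_nonneg _)
        _ = (c₀ : ℝ) * (η * T) := by ring
        _ ≤ (c₀ : ℝ) * G.card := mul_le_mul_of_nonneg_left hG1 (Nat.cast_nonneg _)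
    exact_mod_cast h1
  obtain ⟨x, E, k1, k2, k3, k4, k5⟩ := hforce P G cc (by
    intro z hz
    obtain ⟨j, -, hj⟩ := mem_image.1 hz
    exact ⟨col j, j, hj.symm⟩) hTG (by
    intro d hd
    obtain ⟨h1, h2⟩ := hcc d hd
    refine mem_image.2 ⟨cc d, (hJm _).2 h2, ?_⟩
    show off (col (cc d)) (cc d) = off d (cc d)
    rw [h1])
  -- the primes
  have hidx : ∀ i, ∃ j : Fin K, i ≤ k → (n + t j).Prime ∧ o j = x i := by
    intro i
    by_cases hi : i ≤ k
    · obtain ⟨j, hj, hjx⟩ := mem_image.1 (k2 i hi)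
      exact ⟨j, fun _ => ⟨(hJm _).1 hj, hjx⟩⟩
    · exact ⟨⟨0, hK0⟩, fun hh => absurd hh hi⟩
  choose jj hjj using hidx
  set ϖ : ℕ → ℕ := fun i => n + t (jj i) with hϖ
  have hπp : ∀ i, i ≤ k → (ϖ i).Prime := fun i hi => (hjj i hi).1
  have hπt : ∀ i, i < k → t (jj i) < t (jj (i + 1)) := by
    intro i hi
    apply htlt
    rw [(hjj i hi.le).2, (hjj (i + 1) hi).2]
    exact k1 i (i + 1) (by omega) hi
  have hπlt : ∀ i, i < k → ϖ i < ϖ (i + 1) := fun i hi => Nat.add_lt_add_left (hπt i hi) n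
  have hxle : ∀ i j, i ≤ j → j ≤ k → x i ≤ x j := by
    intro i j hij hj
    rcases hij.lt_or_eq with h1 | h1
    · exact (k1 i j h1 hj).le
    · rw [h1]
  have hno : ∀ i, i < k → ∀ s, ϖ i < s → s < ϖ (i + 1) → ¬ s.Prime := by
    intro i hi s hs1 hs2 hs
    simp only [hϖ] at hs1 hs2
    obtain ⟨u, rfl⟩ : ∃ u, s = n + u := ⟨s - n, by omega⟩
    have hu : (u : ℝ) ≤ c1 * ff X := by
      have h1 : u ≤ t (jj (i + 1)) := by omega
      have h2 : (u : ℝ) ≤ t (jj (i + 1)) := by exact_mod_cast h1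
      exact h2.trans ((htH _).trans hHc1)
    obtain ⟨j, rfl⟩ := hn4 u hu hs
    have h1 : x i < o j := by
      rw [← (hjj i hi.le).2]
      exact holt _ _ (by omega)
    have h2 : o j < x (i + 1) := by
      rw [← (hjj (i + 1) hi).2]
      exact holt _ _ (by omega)
    have h3 := hxle 0 i (Nat.zero_le _) hi.le
    have h4 := hxle (i + 1) k hi le_rfl
    obtain ⟨i', hi', h5⟩ := k3 (o j) (mem_image.2 ⟨j, (hJm _).2 hs, rfl⟩) (by linarith) (by linarith)
    rw [h5] at h1 h2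
    rcases Nat.lt_or_ge i i' with h6 | h6
    · have := hxle (i + 1) i' h6 hi'
      linarith
    · have := hxle i' i h6 hi.le
      linarith
  have hnth := nth_chain hπp hπlt hno
  set N : ℕ := Nat.count Nat.Prime (ϖ 0) with hN
  have hgp : ∀ i, i < k → gp N i = (t (jj (i + 1)) : ℝ) - t (jj i) := by
    intro i hi
    unfold gp
    rw [add_assoc, hnth (i + 1) hi, hnth i hi.le]
    simp only [hϖ]
    push_cast
    ring
  have hΔ : ∀ i, i < k → s0 * ((x (i + 1) : ℝ) - x i) - s0 / 8 ≤ gp N i ∧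
      gp N i ≤ s0 * ((x (i + 1) : ℝ) - x i) + s0 / 8 := by
    intro i hi
    rw [hgp i hi, ← (hjj i hi.le).2, ← (hjj (i + 1) hi).2]
    exact htdiff _ _
  have hΔ1 : ∀ i, i < k → (1 : ℝ) ≤ (x (i + 1) : ℝ) - x i := by
    intro i hi
    have h1 : x i + 1 ≤ x (i + 1) := k1 i (i + 1) (by omega) hi
    have h2 : ((x i + 1 : ℤ) : ℝ) ≤ (x (i + 1) : ℝ) := by exact_mod_cast h1
    push_cast at h2
    linarith
  have hN0 : Nat.nth Nat.Prime N = ϖ 0 := by
    have := hnth 0 (Nat.zero_le _)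
    rwa [Nat.add_zero] at this
  have htt : ∀ i, i ≤ k → t (jj 0) ≤ t (jj i) := by
    intro i
    induction i with
    | zero => intro _; exact le_rfl
    | succ i ih =>
      intro hi
      exact (ih (by omega)).trans (hπt i (by omega)).le
  have hmem : N ∈ Good := by
    refine ⟨?_, ?_, ?_, ?_, ?_, ?_⟩
    · rw [hN0]
      simp only [hϖ]
      push_cast
      have : (0 : ℝ) ≤ t (jj 0) := Nat.cast_nonneg _
      linarith
    · rw [hnth k le_rfl]
      simp only [hϖ]
      push_cast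
      have := htH (jj k)
      linarith
    · rw [hnth k le_rfl, hN0]
      simp only [hϖ]
      push_cast
      have h1 := htH (jj k)
      have : (0 : ℝ) ≤ t (jj 0) := Nat.cast_nonneg _
      linarith
    · intro i hi
      rw [hnth i hi]
      simp only [hϖ]
      have h1 : n ≡ 0 [MOD q] := (Nat.modEq_zero_iff_dvd).2 hqn
      have h2 := h1.add (hta (jj i))
      rwa [zero_add] at h2
    · intro i hi
      have h1 := (hΔ i hi).1
      have h2 := mul_le_mul_of_nonneg_left (hΔ1 i hi) hs0pos.le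
      linarith
    · intro i j hi hj hij
      have hE := k5 i j hi hj hij
      have hi1 := (hΔ i hi).2
      have hj1 := (hΔ j hj).1
      have hi2 := hΔ1 i hi
      have hj2 := hΔ1 j hj
      have w1 : ((x (i + 1) : ℝ) - x i) ≤ 2 * (b (E i) : ℝ) := by exact_mod_cast (k4 i hi).2
      have w2 : (b (E j) : ℝ) ≤ 2 * ((x (j + 1) : ℝ) - x j) := by exact_mod_cast (k4 j hj).1
      have w3 : (8 * (B : ℝ)) * (b (E i) : ℝ) ≤ b (E j) := by
        simp only [hb]
        have h1 : (8 * B) ^ (E i + 1) ≤ (8 * B) ^ (E j) := Nat.pow_le_pow_right (by omega) hE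
        have h2 : (8 * B) * (8 * B) ^ (E i) ≤ (8 * B) ^ (E j) := by
          rw [pow_succ] at h1
          rwa [mul_comm]
        exact_mod_cast h2
      have hgi0 : 0 ≤ gp N i := by
        have h1 := (hΔ i hi).1
        have h2 := mul_le_mul_of_nonneg_left hi2 hs0pos.le
        linarith
      have hb0 : (1 : ℝ) ≤ b (E i) := by exact_mod_cast hbS.pos (E i)
      have hB1r : (1 : ℝ) ≤ B := by exact_mod_cast hB1
      have u1 : gp N i ≤ s0 * (9 / 4 * (b (E i) : ℝ)) := by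
        have h1 : s0 * ((x (i + 1) : ℝ) - x i) ≤ s0 * (2 * (b (E i) : ℝ)) :=
          mul_le_mul_of_nonneg_left w1 hs0pos.le
        have h2 : s0 * 1 ≤ s0 * (b (E i) : ℝ) := mul_le_mul_of_nonneg_left hb0 hs0pos.le
        linarith
      have u2 : s0 * (7 / 16 * (b (E j) : ℝ)) ≤ gp N j := by
        have h1 : s0 * (b (E j) : ℝ) ≤ s0 * (2 * ((x (j + 1) : ℝ) - x j)) :=
          mul_le_mul_of_nonneg_left w2 hs0pos.le
        have h2 : s0 * 1 ≤ s0 * ((x (j + 1) : ℝ) - x j) := mul_le_mul_of_nonneg_left hj2 hs0pos.le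
        linarith
      calc A * gp N i ≤ B * gp N i := mul_le_mul_of_nonneg_right hAB hgi0
        _ ≤ B * (s0 * (9 / 4 * (b (E i) : ℝ))) := mul_le_mul_of_nonneg_left u1 (by linarith)
        _ = s0 * (9 / 32 * (8 * (B : ℝ) * (b (E i) : ℝ))) := by ring
        _ ≤ s0 * (9 / 32 * (b (E j) : ℝ)) := by
            apply mul_le_mul_of_nonneg_left _ hs0pos.le
            linarith
        _ ≤ s0 * (7 / 16 * (b (E j) : ℝ)) := by
            apply mul_le_mul_of_nonneg_left _ hs0pos.le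
            have : (0 : ℝ) ≤ b (E j) := by
              have h1 : (1 : ℝ) ≤ b (E j) := by exact_mod_cast hbS.pos (E j)
              linarith
            linarith
        _ ≤ gp N j := u2
  apply hn3
  rw [hbaddef, Finset.mem_biUnion]
  refine ⟨N, ?_, ?_⟩
  · rw [hG0, Set.Finite.mem_toFinset]
    exact hmem
  · rw [hN0, Finset.mem_Icc]
    simp only [hϖ]
    have h1 : t (jj 0) ≤ ⌊H⌋₊ := Nat.le_floor (htH _)
    omega

end Pool.Agent.TH29.GO
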