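import Mathlib

set_option autoImplicit false

/-!
# Order patterns of the gaps of a selection: combinatorial part

`N` points in increasing order are given; the point number `i` lies in the group number `A i` and has
the scale `s i`.  The order of the exponents of the gaps between consecutive points is determined in
three cases.
-/

namespace Pool.Agent.TH29.GO

open Finset

/-- The last index of a fibre of a monotone sequence and the `r` indices before it. -/
theorem last_fibre (N : ℕ) (A : ℕ → ℕ) (hA : ∀ i j, i ≤ j → j < N → A i ≤ A j) (a r : ℕ)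
    (hc : r + 1 ≤ ((range N).filter (fun i => A i = a)).card) :
    ∃ i0, r ≤ i0 ∧ i0 < N ∧ (∀ i, i ≤ i0 → i0 ≤ i + r → A i = a) ∧
      (∀ j, i0 < j → j < N → a < A j) := by
  set Fb := (range N).filter (fun i => A i = a) with hFb
  have hne : Fb.Nonempty := card_pos.1 (by omega)
  obtain ⟨i0, hi0⟩ : ∃ i0, i0 = Fb.max' hne := ⟨_, rfl⟩
  have hmem : i0 ∈ Fb := hi0 ▸ max'_mem _ _
  have hmax : ∀ j ∈ Fb, j ≤ i0 := fun j hj => hi0 ▸ le_max' Fb j hj
  have h1 : i0 < N := mem_range.1 (mem_filter.1 hmem).1
  have h2 : A i0 = a := (mem_filter.1 hmem).2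
  have hlast : ∀ j, i0 < j → j < N → a < A j := by
    intro j hj hjN
    have h3 : a ≤ A j := h2 ▸ hA i0 j hj.le hjN
    rcases h3.lt_or_eq with h | h
    · exact h
    · exfalso
      have h4 := hmax j (mem_filter.2 ⟨mem_range.2 hjN, h.symm⟩)
      omega
  have hfib : ∀ i, i ≤ i0 → i0 ≤ i + r → A i = a := by
    intro i hi hir
    have h3 : A i ≤ a := h2 ▸ hA i i0 hi h1
    rcases h3.lt_or_eq with h | h
    · exfalso
      have hsub : Fb ⊆ Ioc i i0 := by
        intro j hj
        have hj' := mem_filter.1 hj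
        rw [mem_Ioc]
        refine ⟨?_, hmax j hj⟩
        by_contra hcon
        have := hA j i (by omega) (by omega)
        omega
      have := card_le_card hsub
      rw [Nat.card_Ioc] at this
      omega
    · exact h
  refine ⟨i0, ?_, h1, hfib, hlast⟩
  have hsub : Fb ⊆ range (i0 + 1) := fun j hj => mem_range.2 (Nat.lt_succ_of_le (hmax j hj))
  have := card_le_card hsub
  rw [card_range] at this
  omega

/-- three groups of selected points, each with at least `r + 2` -/
def Rich (r N : ℕ) (A : ℕ → ℕ) : Prop := ∃ a1 a2 a3 : ℕ, a1 < a2 ∧ a2 < a3 ∧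
  r + 2 ≤ ((range N).filter (fun i => A i = a1)).card ∧
  r + 2 ≤ ((range N).filter (fun i => A i = a2)).card ∧
  r + 2 ≤ ((range N).filter (fun i => A i = a3)).card

/-- the order type `1, …, r, r+2, r+1` (numbers from `0` on) -/
def pat1 (r i : ℕ) : ℕ := if i < r then i else if i = r then r + 1 else r

/-- the order type `r, …, 1, r+2, r+1` -/
def pat2 (r i : ℕ) : ℕ := if i < r then r - 1 - i else if i = r then r + 1 else r

/-- the order type `2, …, r+1, 1` -/
def pat3 (r i : ℕ) : ℕ := if i < r then i + 1 else 0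

/-- the order type `1, r+2, 2, …, r+1` -/
def pat4 (r i : ℕ) : ℕ := if i = 0 then 0 else if i = 1 then r + 1 else i - 1

/-- exponents of the gaps: groups with growing gaps, shrinking distances of the groups -/
def ex1 (G M : ℕ) (A s : ℕ → ℕ) (i : ℕ) : ℕ :=
  if A i = A (i + 1) then s (i + 1) else M + (G - 1 - A i)

/-- exponents of the gaps: groups with shrinking gaps, shrinking distances of the groups -/
def ex2 (G M : ℕ) (A s : ℕ → ℕ) (i : ℕ) : ℕ :=
  if A i = A (i + 1) then s i else M + (G - 1 - A i)

/-- exponents of the gaps: groups with growing gaps, growing distances of the groups -/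
def ex3 (M : ℕ) (A s : ℕ → ℕ) (i : ℕ) : ℕ :=
  if A i = A (i + 1) then s (i + 1) else M + A (i + 1)

/-- exponents of the gaps: groups with growing gaps, growing distances of the groups, which lie
between the gaps of the groups -/
def ex4 (L : ℕ) (A s : ℕ → ℕ) (i : ℕ) : ℕ :=
  if A i = A (i + 1) then s (i + 1) else A (i + 1) * (L + 1) + L

variable {G M N r : ℕ} {A s : ℕ → ℕ}

theorem forced1 (hA : ∀ i j, i ≤ j → j < N → A i ≤ A j) (hG : ∀ i, i < N → A i < G)
    (hM : ∀ i, i < N → s i < M) (hin : ∀ i j, i < j → j < N → A i = A j → s i < s j)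
    (hout : ∀ i j, i < N → j < N → A i < A j → s i < s j) (hR : Rich r N A) :
    ∃ w, w + (r + 2) < N ∧ ∀ i j, i < r + 2 → j < r + 2 → pat1 r i < pat1 r j →
      ex1 G M A s (w + i) < ex1 G M A s (w + j) := by
  obtain ⟨a, a2, a3, h12, h23, hc1, hc2, hc3⟩ := hR
  obtain ⟨i0, hr, hi0, hfib, hlast⟩ := last_fibre N A hA a r (by omega)
  -- two further points
  obtain ⟨j2, hj2⟩ := card_pos.1 (by omega : 0 < ((range N).filter (fun i => A i = a2)).card)
  obtain ⟨j3, hj3⟩ := card_pos.1 (by omega : 0 < ((range N).filter (fun i => A i = a3)).card)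
  rw [mem_filter, mem_range] at hj2 hj3
  have hAi0 : A i0 = a := hfib i0 le_rfl (by omega)
  have k2 : i0 < j2 := by
    by_contra h
    have := hA j2 i0 (by omega) hi0
    omega
  have k3 : j2 < j3 := by
    by_contra h
    have := hA j3 j2 (by omega) hj2.1
    omega
  have hN : i0 + 2 < N := by omega
  have e1 : ∀ i, i < r → ex1 G M A s (i0 - r + i) = s (i0 - r + i + 1) := by
    intro i hi
    unfold ex1
    rw [if_pos]
    rw [hfib (i0 - r + i) (by omega) (by omega), hfib (i0 - r + i + 1) (by omega) (by omega)]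
  have e2 : ex1 G M A s i0 = M + (G - 1 - a) := by
    unfold ex1
    have h1 := hlast (i0 + 1) (by omega) (by omega)
    rw [if_neg (by omega), hAi0]
  have e3 : (∀ i, i ≤ i0 → i0 ≤ i + r → s i < ex1 G M A s (i0 + 1)) ∧
      ex1 G M A s (i0 + 1) < M + (G - 1 - a) := by
    have h1 := hlast (i0 + 1) (by omega) (by omega)
    have hg := hG (i0 + 1) (by omega)
    unfold ex1
    split_ifs with h
    · constructor
      · intro i hi hir
        have h3 := hfib i hi hir
        have h4 := hlast (i0 + 1 + 1) (by omega) (by omega)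
        exact hout i (i0 + 1 + 1) (by omega) (by omega) (by omega)
      · have := hM (i0 + 1 + 1) (by omega)
        omega
    · constructor
      · intro i hi hir
        have := hM i (by omega)
        omega
      · omega
  refine ⟨i0 - r, by omega, ?_⟩
  intro i j hi hj hp
  have hr' : i0 - r + r = i0 := by omega
  unfold pat1 at hp
  rcases lt_trichotomy i r with h1 | h1 | h1
  · rw [if_pos h1] at hp
    rw [e1 i h1]
    have hs1 : s (i0 - r + i + 1) < ex1 G M A s (i0 + 1) := e3.1 _ (by omega) (by omega)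
    rcases lt_trichotomy j r with h2 | h2 | h2
    · rw [if_pos h2] at hp
      rw [e1 j h2]
      refine hin _ _ (by omega) (by omega) ?_
      rw [hfib (i0 - r + i + 1) (by omega) (by omega), hfib (i0 - r + j + 1) (by omega) (by omega)]
    · subst h2
      rw [hr', e2]
      have := e3.2
      omega
    · have : j = r + 1 := by omega
      subst this
      rw [show i0 - r + (r + 1) = i0 + 1 by omega]
      exact hs1
  · subst h1
    rw [if_neg (lt_irrefl _), if_pos rfl] at hp
    split_ifs at hp <;> omega
  · rw [if_neg (by omega), if_neg (by omega)] at hp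
    have : i = r + 1 := by omega
    subst this
    rcases lt_trichotomy j r with h2 | h2 | h2
    · rw [if_pos h2] at hp
      omega
    · subst h2
      rw [hr', e2, show i0 - j + (j + 1) = i0 + 1 by omega]
      exact e3.2
    · rw [if_neg (by omega), if_neg (by omega)] at hp
      omega

theorem forced2 (hA : ∀ i j, i ≤ j → j < N → A i ≤ A j) (hG : ∀ i, i < N → A i < G)
    (hM : ∀ i, i < N → s i < M) (hin : ∀ i j, i < j → j < N → A i = A j → s j < s i)
    (hout : ∀ i j, i < N → j < N → A i < A j → s i < s j) (hR : Rich r N A) :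
    ∃ w, w + (r + 2) < N ∧ ∀ i j, i < r + 2 → j < r + 2 → pat2 r i < pat2 r j →
      ex2 G M A s (w + i) < ex2 G M A s (w + j) := by
  obtain ⟨a, a2, a3, h12, h23, hc1, hc2, hc3⟩ := hR
  obtain ⟨i0, hr, hi0, hfib, hlast⟩ := last_fibre N A hA a r (by omega)
  obtain ⟨j2, hj2⟩ := card_pos.1 (by omega : 0 < ((range N).filter (fun i => A i = a2)).card)
  obtain ⟨j3, hj3⟩ := card_pos.1 (by omega : 0 < ((range N).filter (fun i => A i = a3)).card)
  rw [mem_filter, mem_range] at hj2 hj3
  have hAi0 : A i0 = a := hfib i0 le_rfl (by omega)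
  have k2 : i0 < j2 := by
    by_contra h
    have := hA j2 i0 (by omega) hi0
    omega
  have k3 : j2 < j3 := by
    by_contra h
    have := hA j3 j2 (by omega) hj2.1
    omega
  have hN : i0 + 2 < N := by omega
  have e1 : ∀ i, i < r → ex2 G M A s (i0 - r + i) = s (i0 - r + i) := by
    intro i hi
    unfold ex2
    rw [if_pos]
    rw [hfib (i0 - r + i) (by omega) (by omega), hfib (i0 - r + i + 1) (by omega) (by omega)]
  have e2 : ex2 G M A s i0 = M + (G - 1 - a) := by
    unfold ex2
    have h1 := hlast (i0 + 1) (by omega) (by omega)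
    rw [if_neg (by omega), hAi0]
  have e3 : (∀ i, i ≤ i0 → i0 ≤ i + r → s i < ex2 G M A s (i0 + 1)) ∧
      ex2 G M A s (i0 + 1) < M + (G - 1 - a) := by
    have h1 := hlast (i0 + 1) (by omega) (by omega)
    have hg := hG (i0 + 1) (by omega)
    unfold ex2
    split_ifs with h
    · constructor
      · intro i hi hir
        have h3 := hfib i hi hir
        exact hout i (i0 + 1) (by omega) (by omega) (by omega)
      · have := hM (i0 + 1) (by omega)
        omega
    · constructor
      · intro i hi hir
        have := hM i (by omega)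
        omega
      · omega
  refine ⟨i0 - r, by omega, ?_⟩
  intro i j hi hj hp
  have hr' : i0 - r + r = i0 := by omega
  unfold pat2 at hp
  rcases lt_trichotomy i r with h1 | h1 | h1
  · rw [if_pos h1] at hp
    rw [e1 i h1]
    have hs1 : s (i0 - r + i) < ex2 G M A s (i0 + 1) := e3.1 _ (by omega) (by omega)
    rcases lt_trichotomy j r with h2 | h2 | h2
    · rw [if_pos h2] at hp
      rw [e1 j h2]
      refine hin _ _ (by omega) (by omega) ?_
      rw [hfib (i0 - r + i) (by omega) (by omega), hfib (i0 - r + j) (by omega) (by omega)]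
    · subst h2
      rw [hr', e2]
      have := e3.2
      omega
    · have : j = r + 1 := by omega
      subst this
      rw [show i0 - r + (r + 1) = i0 + 1 by omega]
      exact hs1
  · subst h1
    rw [if_neg (lt_irrefl _), if_pos rfl] at hp
    split_ifs at hp <;> omega
  · rw [if_neg (by omega), if_neg (by omega)] at hp
    have : i = r + 1 := by omega
    subst this
    rcases lt_trichotomy j r with h2 | h2 | h2
    · subst_vars
      rw [e1 j h2]
      exfalso
      rw [if_pos h2] at hp
      omega
    · subst h2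
      rw [hr', e2, show i0 - j + (j + 1) = i0 + 1 by omega]
      exact e3.2
    · rw [if_neg (by omega), if_neg (by omega)] at hp
      omega

theorem forced3 (hA : ∀ i j, i ≤ j → j < N → A i ≤ A j)
    (hM : ∀ i, i < N → s i < M) (hin : ∀ i j, i < j → j < N → A i = A j → s i < s j)
    (hout : ∀ i j, i < N → j < N → A i < A j → s j < s i) (hR : Rich r N A) :
    ∃ w, w + (r + 1) < N ∧ ∀ i j, i < r + 1 → j < r + 1 → pat3 r i < pat3 r j →
      ex3 M A s (w + i) < ex3 M A s (w + j) := by
  obtain ⟨a, a2, a3, h12, h23, hc1, hc2, hc3⟩ := hR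
  obtain ⟨i0, hr, hi0, hfib, hlast⟩ := last_fibre N A hA a r (by omega)
  obtain ⟨j2, hj21, hj2N, hfib2, -⟩ := last_fibre N A hA a2 1 (by omega)
  have hAi0 : A i0 = a := hfib i0 le_rfl (by omega)
  -- a repeated group after `i0`
  have hex : ∃ j, i0 < j ∧ j + 1 < N ∧ A j = A (j + 1) := by
    refine ⟨j2 - 1, ?_, by omega, ?_⟩
    · by_contra h
      have h1 := hfib2 (j2 - 1) (by omega) (by omega)
      have := hA (j2 - 1) i0 (by omega) hi0
      omega
    · rw [hfib2 (j2 - 1) (by omega) (by omega), show j2 - 1 + 1 = j2 by omega,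
        hfib2 j2 le_rfl (by omega)]
  classical
  obtain ⟨j0, hj0⟩ : ∃ j0, j0 = Nat.find hex := ⟨_, rfl⟩
  have hsp := Nat.find_spec hex
  rw [← hj0] at hsp
  obtain ⟨q1, q2, q3⟩ := hsp
  have hmin : ∀ j, i0 < j → j < j0 → A j < A (j + 1) := by
    intro j h1 h2
    have h3 := Nat.find_min hex (hj0 ▸ h2)
    have h4 := hA j (j + 1) (by omega) (by omega)
    rcases h4.lt_or_eq with h | h
    · exact h
    · exact absurd ⟨h1, by omega, h⟩ h3
  have hmin' : ∀ j, i0 ≤ j → j < j0 → A j < A (j + 1) := by
    intro j h1 h2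
    rcases h1.lt_or_eq with h | h
    · exact hmin j h h2
    · subst h
      rw [hAi0]
      exact hlast (i0 + 1) (by omega) (by omega)
  have e0 : ex3 M A s j0 = s (j0 + 1) := by
    unfold ex3
    rw [if_pos q3]
  -- the gaps before `j0`
  have e1 : ∀ i, i < i0 → i0 ≤ i + r → ex3 M A s i = s (i + 1) := by
    intro i h1 h2
    unfold ex3
    rw [if_pos]
    rw [hfib i (by omega) (by omega), hfib (i + 1) (by omega) (by omega)]
  have e2 : ∀ i, i0 ≤ i → i < j0 → ex3 M A s i = M + A (i + 1) := by
    intro i h1 h2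
    unfold ex3
    rw [if_neg]
    have := hmin' i h1 h2
    omega
  have key : ∀ i, i0 ≤ i + r → i < j0 → s (j0 + 1) < ex3 M A s i := by
    intro i h1 h2
    have hb := hlast (j0 + 1) (by omega) (by omega)
    rcases Nat.lt_or_ge i i0 with h | h
    · rw [e1 i h h1]
      refine hout (i + 1) (j0 + 1) (by omega) (by omega) ?_
      rw [hfib (i + 1) (by omega) (by omega)]
      exact hb
    · rw [e2 i h h2]
      have := hM (j0 + 1) (by omega)
      omega
  have keyinc : ∀ i j, i0 ≤ i + r → i < j → j < j0 → ex3 M A s i < ex3 M A s j := by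
    intro i j h1 h2 h3
    rcases Nat.lt_or_ge i i0 with h | h
    · rw [e1 i h h1]
      rcases Nat.lt_or_ge j i0 with h' | h'
      · rw [e1 j h' (by omega)]
        refine hin _ _ (by omega) (by omega) ?_
        rw [hfib (i + 1) (by omega) (by omega), hfib (j + 1) (by omega) (by omega)]
      · rw [e2 j h' h3]
        have := hM (i + 1) (by omega)
        omega
    · rw [e2 i h (by omega), e2 j (by omega) h3]
      have h4 := hmin' j (by omega) h3
      have h5 := hA (i + 1) j (by omega) (by omega)
      omega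
  refine ⟨j0 - r, by omega, ?_⟩
  intro i j hi hj hp
  unfold pat3 at hp
  by_cases h1 : i < r
  · rw [if_pos h1] at hp
    by_cases h2 : j < r
    · rw [if_pos h2] at hp
      exact keyinc _ _ (by omega) (by omega) (by omega)
    · rw [if_neg h2] at hp
      omega
  · rw [if_neg h1] at hp
    by_cases h2 : j < r
    · have : i = r := by omega
      subst this
      rw [show j0 - i + i = j0 by omega, e0]
      exact key _ (by omega) (by omega)
    · rw [if_neg h2] at hp
      omega

/-- The first index of a fibre of a monotone sequence and the `r` indices after it. -/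
theorem first_fibre (N : ℕ) (A : ℕ → ℕ) (hA : ∀ i j, i ≤ j → j < N → A i ≤ A j) (a r : ℕ)
    (hc : r + 1 ≤ ((range N).filter (fun i => A i = a)).card) :
    ∃ i0, i0 + r < N ∧ (∀ i, i0 ≤ i → i ≤ i0 + r → A i = a) ∧ (∀ j, j < i0 → A j < a) := by
  set Fb := (range N).filter (fun i => A i = a) with hFb
  have hne : Fb.Nonempty := card_pos.1 (by omega)
  obtain ⟨i0, hi0⟩ : ∃ i0, i0 = Fb.min' hne := ⟨_, rfl⟩
  have hmem : i0 ∈ Fb := hi0 ▸ min'_mem _ _
  have hmin : ∀ j ∈ Fb, i0 ≤ j := fun j hj => hi0 ▸ min'_le Fb j hj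
  have h1 : i0 < N := mem_range.1 (mem_filter.1 hmem).1
  have h2 : A i0 = a := (mem_filter.1 hmem).2
  have hN : i0 + r < N := by
    have hsub : Fb ⊆ Ico i0 N := by
      intro j hj
      rw [mem_Ico]
      exact ⟨hmin j hj, mem_range.1 (mem_filter.1 hj).1⟩
    have := card_le_card hsub
    rw [Nat.card_Ico] at this
    omega
  refine ⟨i0, hN, ?_, ?_⟩
  · intro i hi hir
    have h3 : a ≤ A i := h2 ▸ hA i0 i hi (by omega)
    rcases h3.lt_or_eq with h | h
    · exfalso
      have hsub : Fb ⊆ Ico i0 i := by
        intro j hj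
        have hj' := mem_filter.1 hj
        rw [mem_Ico]
        refine ⟨hmin j hj, ?_⟩
        by_contra hcon
        have := hA i j (by omega) (mem_range.1 hj'.1)
        omega
      have := card_le_card hsub
      rw [Nat.card_Ico] at this
      omega
    · exact h.symm
  · intro j hj
    have h3 : A j ≤ a := h2 ▸ hA j i0 hj.le h1
    rcases h3.lt_or_eq with h | h
    · exact h
    · exfalso
      have h4 := hmin j (mem_filter.2 ⟨mem_range.2 (by omega), h⟩)
      omega

theorem forced4 {L : ℕ} (hA : ∀ i j, i ≤ j → j < N → A i ≤ A j)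
    (hs : ∀ i, i < N → ∃ e < L, s i = A i * (L + 1) + e)
    (hin : ∀ i j, i < j → j < N → A i = A j → s i < s j) (hR : Rich r N A) :
    ∃ w, w + (r + 2) < N ∧ ∀ i j, i < r + 2 → j < r + 2 → pat4 r i < pat4 r j →
      ex4 L A s (w + i) < ex4 L A s (w + j) := by
  obtain ⟨a, a2, a3, h12, h23, hc1, hc2, hc3⟩ := hR
  obtain ⟨j1, hr1, hj1, hfib1, hlast1⟩ := last_fibre N A hA a 1 (by omega)
  obtain ⟨j0, hj0, hfib, hfirst⟩ := first_fibre N A hA a2 r (by omega)
  have h0 : A j0 = a2 := hfib j0 le_rfl (by omega)
  have hlt : j1 < j0 := by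
    by_contra hcon
    have h1 := hA j0 j1 (by omega) hj1
    have h2 := hfib1 j1 le_rfl (by omega)
    omega
  have hblock : ∀ i e, A i < a2 → e ≤ L → A i * (L + 1) + e < a2 * (L + 1) := by
    intro i e h1 h2
    have h3 : (A i + 1) * (L + 1) ≤ a2 * (L + 1) := Nat.mul_le_mul_right _ h1
    have h4 : (A i + 1) * (L + 1) = A i * (L + 1) + (L + 1) := by ring
    omega
  -- the gap before the last gap before the group
  have e0 : ex4 L A s (j0 - 2) < a2 * (L + 1) := by
    unfold ex4
    rw [show j0 - 2 + 1 = j0 - 1 by omega]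
    have h1 := hfirst (j0 - 1) (by omega)
    split_ifs with h
    · obtain ⟨e, he, h2⟩ := hs (j0 - 1) (by omega)
      rw [h2]
      exact hblock _ _ h1 he.le
    · exact hblock _ _ h1 le_rfl
  have e1 : ex4 L A s (j0 - 1) = a2 * (L + 1) + L := by
    unfold ex4
    rw [show j0 - 1 + 1 = j0 by omega, h0, if_neg]
    have := hfirst (j0 - 1) (by omega)
    omega
  have e2 : ∀ i, i < r → ex4 L A s (j0 + i) = s (j0 + i + 1) := by
    intro i hi
    unfold ex4
    rw [if_pos]
    rw [hfib (j0 + i) (by omega) (by omega), hfib (j0 + i + 1) (by omega) (by omega)]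
  have e3 : ∀ i, i < r → a2 * (L + 1) ≤ s (j0 + i + 1) ∧ s (j0 + i + 1) < a2 * (L + 1) + L := by
    intro i hi
    obtain ⟨e, he, h2⟩ := hs (j0 + i + 1) (by omega)
    rw [hfib (j0 + i + 1) (by omega) (by omega)] at h2
    omega
  refine ⟨j0 - 2, by omega, ?_⟩
  intro i j hi hj hp
  unfold pat4 at hp
  rcases Nat.lt_or_ge i 2 with h1 | h1
  · obtain rfl | rfl : i = 0 ∨ i = 1 := by omega
    · rcases Nat.lt_or_ge j 2 with h2 | h2
      · obtain rfl | rfl : j = 0 ∨ j = 1 := by omega
        · simp at hp
        · rw [Nat.add_zero, show j0 - 2 + 1 = j0 - 1 by omega, e1]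
          omega
      · rw [Nat.add_zero, show j0 - 2 + j = j0 + (j - 2) by omega, e2 (j - 2) (by omega)]
        have := (e3 (j - 2) (by omega)).1
        omega
    · exfalso
      simp only [one_ne_zero, if_false, if_true] at hp
      split_ifs at hp <;> omega
  · rw [if_neg (by omega), if_neg (by omega)] at hp
    rw [show j0 - 2 + i = j0 + (i - 2) by omega, e2 (i - 2) (by omega)]
    rcases Nat.lt_or_ge j 2 with h2 | h2
    · obtain rfl | rfl : j = 0 ∨ j = 1 := by omega
      · simp at hp
      · rw [show j0 - 2 + 1 = j0 - 1 by omega, e1]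
        exact (e3 (i - 2) (by omega)).2
    · rw [if_neg (by omega), if_neg (by omega)] at hp
      rw [show j0 - 2 + j = j0 + (j - 2) by omega, e2 (j - 2) (by omega)]
      refine hin _ _ (by omega) (by omega) ?_
      rw [hfib (j0 + (i - 2) + 1) (by omega) (by omega), hfib (j0 + (j - 2) + 1) (by omega) (by omega)]

end Pool.Agent.TH29.GO
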