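import Pool.Agent.TH29.GO.Geo

set_option autoImplicit false

/-!
# Order patterns of gaps: patterns forced in every selection that meets a quarter of the colours
-/

namespace Pool.Agent.TH29.GO

open Finset

/-- The pattern `σ` of `k` gaps is forced: there are `T` colours such that for every `K` and every
scale sequence there are positions, `K` of each colour, such that every set of positions which
contains positions of at least `T / c` of the colours has consecutive elements with this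
pattern. -/
def Forces (c₀ k : ℕ) (σ : ℕ → ℕ) : Prop := ∃ T : ℕ, 1 ≤ T ∧ ∀ K : ℕ, 1 ≤ K → ∀ b : ℕ → ℤ, Scale b →
  ∀ W : ℤ, (∀ e, W ∣ b e) → ∃ off : Fin T → Fin K → ℤ,
    Function.Injective (fun x : Fin T × Fin K => off x.1 x.2) ∧ (∀ g i, W ∣ off g i) ∧
    ∀ (P : Finset ℤ) (S : Finset (Fin T)) (c : Fin T → Fin K), (∀ y ∈ P, ∃ g i, y = off g i) →
      T ≤ c₀ * S.card → (∀ g ∈ S, off g (c g) ∈ P) → Window b k σ P

theorem Forces.mirror {c₀ k : ℕ} {σ τ : ℕ → ℕ} (h : Forces c₀ k σ)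
    (hτ : ∀ i, i < k → τ i = σ (k - 1 - i)) : Forces c₀ k τ := by
  obtain ⟨T, hT1, hT⟩ := h
  refine ⟨T, hT1, fun K hK b hb W hW => ?_⟩
  obtain ⟨off, h1, h2, h3⟩ := hT K hK b hb W hW
  refine ⟨fun g i => -off g i, ?_, fun g i => (dvd_neg).2 (h2 g i), ?_⟩
  · intro x y hxy
    apply h1
    simpa using hxy
  intro P S c hP hS hc
  obtain ⟨x, E, k1, k2, k3, k4, k5⟩ := h3 (P.image (fun y => -y)) S c (by
    intro y hy
    obtain ⟨z, hz, rfl⟩ := mem_image.1 hy
    obtain ⟨g, i, h4⟩ := hP z hz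
    exact ⟨g, i, by rw [h4]; ring⟩) hS (by
    intro g hg
    exact mem_image.2 ⟨_, hc g hg, by ring⟩)
  refine ⟨fun i => -x (k - i), fun i => E (k - 1 - i), ?_, ?_, ?_, ?_, ?_⟩
  · intro i j hij hj
    have := k1 (k - j) (k - i) (by omega) (by omega)
    linarith
  · intro i hi
    obtain ⟨z, hz, h4⟩ := mem_image.1 (k2 (k - i) (by omega))
    show -x (k - i) ∈ P
    rw [← h4, neg_neg]
    exact hz
  · intro y hy h4 h5
    simp only [Nat.sub_zero, Nat.sub_self] at h4 h5
    obtain ⟨i, hi, h6⟩ := k3 (-y) (mem_image.2 ⟨y, hy, rfl⟩) (by linarith) (by linarith)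
    refine ⟨k - i, by omega, ?_⟩
    show y = -x (k - (k - i))
    rw [show k - (k - i) = i by omega, ← h6, neg_neg]
  · intro i hi
    have h4 := k4 (k - 1 - i) (by omega)
    show b (E (k - 1 - i)) ≤ 2 * (-x (k - (i + 1)) - -x (k - i)) ∧
      -x (k - (i + 1)) - -x (k - i) ≤ 2 * b (E (k - 1 - i))
    rw [show k - 1 - i + 1 = k - i by omega] at h4
    rw [show k - (i + 1) = k - 1 - i by omega]
    constructor <;> linarith [h4.1, h4.2]
  · intro i j hi hj hij
    rw [hτ i hi, hτ j hj] at hij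
    exact k5 _ _ (by omega) (by omega) hij

theorem Forces.restrict {c₀ k k' : ℕ} {σ τ : ℕ → ℕ} (h : Forces c₀ k σ) (hk : k' ≤ k)
    (hτ : ∀ i j, i < k' → j < k' → τ i < τ j → σ i < σ j) : Forces c₀ k' τ := by
  obtain ⟨T, hT1, hT⟩ := h
  refine ⟨T, hT1, fun K hK b hb W hW => ?_⟩
  obtain ⟨off, h1, h2, h3⟩ := hT K hK b hb W hW
  refine ⟨off, h1, h2, ?_⟩
  intro P S c hP hS hc
  obtain ⟨x, E, k1, k2, k3, k4, k5⟩ := h3 P S c hP hS hc
  refine ⟨x, E, fun i j hij hj => k1 i j hij (by omega), fun i hi => k2 i (by omega), ?_,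
    fun i hi => k4 i (by omega), fun i j hi hj hij => k5 i j (by omega) (by omega) (hτ i j hi hj hij)⟩
  intro y hy h4 h5
  have h6 : x k' ≤ x k := by
    rcases hk.lt_or_eq with h | h
    · exact (k1 k' k h le_rfl).le
    · rw [h]
  obtain ⟨i, hi, h7⟩ := k3 y hy h4 (h5.trans h6)
  refine ⟨i, ?_, h7⟩
  by_contra hcon
  have := k1 k' i (by omega) hi
  rw [h7] at h5
  linarith

theorem forces_of (c₀ r k : ℕ) (hc₀ : 1 ≤ c₀) (σ : ℕ → ℕ) (d : Bool)
    (h : ∀ (b : ℕ → ℤ), Scale b → ∀ L : ℕ, ∃ (M : ℕ) (X : ℕ → ℤ) (sf top : ℕ → ℕ → ℕ),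
      Geo b (6 * c₀) L M X sf top ∧ (∀ W : ℤ, (∀ e, W ∣ b e) → ∀ a, W ∣ X a) ∧
      ∀ (N : ℕ) (A s : ℕ → ℕ), (∀ i j, i ≤ j → j < N → A i ≤ A j) → (∀ i, i < N → A i < 6 * c₀) →
        (∀ i, i < N → s i < M) →
        (∀ i j, i < j → j < N → A i = A j → if d then s i < s j else s j < s i) →
        (∀ i, i < N → ∃ e < L, s i = sf (A i) e) → Rich r N A →
        ∃ w, w + k < N ∧ ∀ i j, i < k → j < k → σ i < σ j →
          EX d top A s (w + i) < EX d top A s (w + j)) :
    Forces c₀ k σ := by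
  classical
  set G : ℕ := 6 * c₀ with hG
  set B : ℕ := 2 * c₀ * (r + 2) with hB
  have hB1 : 1 ≤ B := Nat.mul_pos (by omega) (by omega)
  refine ⟨G * B, Nat.mul_pos (by omega) hB1, fun K hK b hb W hW => ?_⟩
  obtain ⟨M, X, sf, top, hg, hX, hcomb⟩ := h b hb (B * K)
  let e : Fin G × Fin B ≃ Fin (G * B) := finProdFinEquiv
  set off : Fin (G * B) → Fin K → ℤ := fun g i =>
    pt b X sf d ((e.symm g).1 : ℕ) (((e.symm g).2 : ℕ) * K + (i : ℕ)) with hoff
  have hL : ∀ (g : Fin (G * B)) (i : Fin K),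
      ((e.symm g).2 : ℕ) * K + (i : ℕ) < B * K := by
    intro g i
    have h1 := (e.symm g).2.2
    have h2 := i.2
    calc ((e.symm g).2 : ℕ) * K + (i : ℕ) < ((e.symm g).2 : ℕ) * K + K := by omega
      _ = (((e.symm g).2 : ℕ) + 1) * K := by ring
      _ ≤ B * K := Nat.mul_le_mul_right K h1
  have hinj : Function.Injective (fun x : Fin (G * B) × Fin K => off x.1 x.2) := by
    rintro ⟨g, i⟩ ⟨g', i'⟩ hx
    simp only [hoff] at hx
    obtain ⟨h1, h2⟩ := pt_inj hb hg d (e.symm g).1.2 (e.symm g').1.2 (hL g i) (hL g' i') hx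
    have h3 : ((e.symm g).2 : ℕ) = ((e.symm g').2 : ℕ) := by
      have h4 : (((e.symm g).2 : ℕ) * K + (i : ℕ)) / K = (((e.symm g').2 : ℕ) * K + (i' : ℕ)) / K := by
        rw [h2]
      rw [mul_comm, Nat.mul_add_div (by omega), Nat.div_eq_of_lt i.2, mul_comm ((e.symm g').2 : ℕ) K,
        Nat.mul_add_div (by omega), Nat.div_eq_of_lt i'.2] at h4
      simpa using h4
    have h5 : (i : ℕ) = (i' : ℕ) := by
      rw [h3] at h2
      omega
    have h6 : e.symm g = e.symm g' := Prod.ext (Fin.ext h1) (Fin.ext h3)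
    exact Prod.ext (e.symm.injective h6) (Fin.ext h5)
  refine ⟨off, hinj, ?_, ?_⟩
  · intro g i
    simp only [hoff, pt]
    exact dvd_add (hX W hW _) (Dvd.dvd.mul_left (hW _) _)
  intro P S c hP hS hc
  refine window_of_geo hb hg d k σ r P ?_ ?_ hcomb
  · intro y hy
    obtain ⟨g, i, h1⟩ := hP y hy
    exact ⟨_, _, (e.symm g).1.2, hL g i, h1⟩
  -- counting
  set F : Fin G → Finset (Fin (G * B)) := fun a => S.filter (fun g => (e.symm g).1 = a) with hF
  have hFQ : ∀ a : Fin G, ∃ Q ⊆ P, (F a).card ≤ Q.card ∧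
      ∀ y ∈ Q, ∃ e' < B * K, y = pt b X sf d (a : ℕ) e' := by
    intro a
    refine ⟨(F a).image (fun g => off g (c g)), ?_, ?_, ?_⟩
    · intro y hy
      obtain ⟨g, hg', rfl⟩ := mem_image.1 hy
      exact hc g (mem_filter.1 hg').1
    · rw [card_image_of_injective]
      intro g g' hgg
      exact congrArg Prod.fst (@hinj (g, c g) (g', c g') hgg)
    · intro y hy
      obtain ⟨g, hg', rfl⟩ := mem_image.1 hy
      refine ⟨_, hL g (c g), ?_⟩
      simp only [hoff]
      rw [(mem_filter.1 hg').2]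
  set R : Finset (Fin G) := univ.filter (fun a => r + 2 ≤ (F a).card) with hR
  have hR3 : 3 ≤ R.card := by
    have h1 : S.card = ∑ a, (F a).card := by
      rw [card_eq_sum_card_fiberwise (f := fun g => (e.symm g).1) (t := univ) (fun _ _ => by simp)]
    have h2 : ∀ a, (F a).card ≤ B := by
      intro a
      have h3 : (F a).card ≤ (univ : Finset (Fin B)).card := by
        apply card_le_card_of_injOn (fun g => (e.symm g).2) (fun _ _ => by simp)
        intro g hg1 g' hg2 hgg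
        have e1 := (mem_filter.1 hg1).2
        have e2 := (mem_filter.1 hg2).2
        apply e.symm.injective
        exact Prod.ext (e1.trans e2.symm) hgg
      simpa using h3
    have h3 : S.card ≤ R.card * B + G * (r + 1) := by
      rw [h1]
      calc ∑ a, (F a).card ≤ ∑ a, ((if a ∈ R then B else 0) + (r + 1)) := by
            apply sum_le_sum
            intro a _
            by_cases ha : a ∈ R
            · rw [if_pos ha]
              have := h2 a
              omega
            · rw [if_neg ha]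
              have : ¬ r + 2 ≤ (F a).card := fun h => ha (mem_filter.2 ⟨mem_univ _, h⟩)
              omega
        _ = R.card * B + G * (r + 1) := by
            rw [sum_add_distrib, sum_const, ← sum_filter, sum_const]
            simp
    by_contra hcon
    have h4 : R.card ≤ 2 := by omega
    have h5 : R.card * B ≤ 2 * B := Nat.mul_le_mul_right _ h4
    have h6 : c₀ * S.card ≤ c₀ * (2 * B + G * (r + 1)) := Nat.mul_le_mul_left _ (by omega)
    have h7 : c₀ * (2 * B + G * (r + 1)) < G * B := by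
      rw [hB, hG]
      have h8 : 0 < c₀ * c₀ := Nat.mul_pos hc₀ hc₀
      nlinarith [Nat.mul_pos h8 (show 0 < r + 2 by omega)]
    omega
  set f := R.orderEmbOfFin rfl with hf
  have hfR : ∀ i, f i ∈ R := fun i => R.orderEmbOfFin_mem rfl i
  have hlt : ∀ i j : Fin R.card, i < j → (f i : ℕ) < (f j : ℕ) := fun i j hij =>
    Fin.lt_def.1 (f.strictMono hij)
  have hcard : ∀ i, r + 2 ≤ (F (f i)).card := fun i => (mem_filter.1 (hfR i)).2
  refine ⟨f ⟨0, by omega⟩, f ⟨1, by omega⟩, f ⟨2, by omega⟩, hlt _ _ (by simp [Fin.lt_def]),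
    hlt _ _ (by simp [Fin.lt_def]), (f ⟨2, by omega⟩).2, ?_, ?_, ?_⟩
  · obtain ⟨Q, hQ1, hQ2, hQ3⟩ := hFQ (f ⟨0, by omega⟩)
    exact ⟨Q, hQ1, (hcard _).trans hQ2, hQ3⟩
  · obtain ⟨Q, hQ1, hQ2, hQ3⟩ := hFQ (f ⟨1, by omega⟩)
    exact ⟨Q, hQ1, (hcard _).trans hQ2, hQ3⟩
  · obtain ⟨Q, hQ1, hQ2, hQ3⟩ := hFQ (f ⟨2, by omega⟩)
    exact ⟨Q, hQ1, (hcard _).trans hQ2, hQ3⟩

/-- shrinking distances -/
def XD (b : ℕ → ℤ) (G M : ℕ) (a : ℕ) : ℤ := -b (M + (G - 1 - a))

/-- growing distances -/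
def XI (b : ℕ → ℤ) (M : ℕ) (a : ℕ) : ℤ := b (M + a)

/-- growing distances, between the gaps of the groups -/
def XJ (b : ℕ → ℤ) (L : ℕ) (a : ℕ) : ℤ := b (a * (L + 1) + L)

theorem sfinc_mono (L a a' e e' : ℕ) (h : a < a') (he : e < L) : a * L + e < a' * L + e' := by
  have h1 : (a + 1) * L ≤ a' * L := Nat.mul_le_mul_right L h
  have h2 : (a + 1) * L = a * L + L := by ring
  omega

theorem geo_inc_D {b : ℕ → ℤ} (hb : Scale b) (G L : ℕ) :
    Geo b G L (G * L) (XD b G (G * L)) (fun a e => a * L + e)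
      (fun a _ => G * L + (G - 1 - a)) where
  sf_lt := by
    intro a e ha he
    have := sfinc_mono L a G e 0 ha he
    simpa using this
  sf_mono := by
    intro a e e' h
    show a * L + e < a * L + e'
    omega
  sf_top := by
    intro a a' e h ha he
    have h1 := sfinc_mono L a G e 0 (h.trans ha) he
    have h2 := sfinc_mono L a' G e 0 ha he
    show a * L + e < G * L + (G - 1 - a) ∧ a' * L + e < G * L + (G - 1 - a)
    omega
  X_lo := by
    intro a a' h ha
    have h1 : 8 * b (G * L + (G - 1 - a')) ≤ b (G * L + (G - 1 - a)) := hb.lt8 (by omega)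
    unfold XD
    linarith
  X_hi := by
    intro a a' h ha
    have h1 := hb.pos (G * L + (G - 1 - a'))
    unfold XD
    linarith

theorem geo_dec_I {b : ℕ → ℤ} (hb : Scale b) (G L : ℕ) :
    Geo b G L (G * L) (XI b (G * L)) (fun a e => (G - 1 - a) * L + e)
      (fun _ a' => G * L + a') where
  sf_lt := by
    intro a e ha he
    have := sfinc_mono L (G - 1 - a) G e 0 (by omega) he
    simpa using this
  sf_mono := by
    intro a e e' h
    show (G - 1 - a) * L + e < (G - 1 - a) * L + e'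
    omega
  sf_top := by
    intro a a' e h ha he
    have h1 := sfinc_mono L (G - 1 - a) G e 0 (by omega) he
    have h2 := sfinc_mono L (G - 1 - a') G e 0 (by omega) he
    show (G - 1 - a) * L + e < G * L + a' ∧ (G - 1 - a') * L + e < G * L + a'
    omega
  X_lo := by
    intro a a' h ha
    have h1 : 8 * b (G * L + a) ≤ b (G * L + a') := hb.lt8 (by omega)
    unfold XI
    linarith
  X_hi := by
    intro a a' h ha
    have h1 := hb.pos (G * L + a)
    unfold XI
    linarith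

theorem geo_inc_J {b : ℕ → ℤ} (hb : Scale b) (G L : ℕ) :
    Geo b G L (G * (L + 1)) (XJ b L) (fun a e => a * (L + 1) + e)
      (fun _ a' => a' * (L + 1) + L) where
  sf_lt := by
    intro a e ha he
    have := sfinc_mono (L + 1) a G e 0 ha (by omega)
    simpa using this
  sf_mono := by
    intro a e e' h
    show a * (L + 1) + e < a * (L + 1) + e'
    omega
  sf_top := by
    intro a a' e h ha he
    have h1 := sfinc_mono (L + 1) a a' e 0 h (by omega)
    show a * (L + 1) + e < a' * (L + 1) + L ∧ a' * (L + 1) + e < a' * (L + 1) + L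
    omega
  X_lo := by
    intro a a' h ha
    have h1 : 8 * b (a * (L + 1) + L) ≤ b (a' * (L + 1) + L) :=
      hb.lt8 (sfinc_mono (L + 1) a a' L L h (by omega))
    unfold XJ
    linarith
  X_hi := by
    intro a a' h ha
    have h1 := hb.pos (a * (L + 1) + L)
    unfold XJ
    linarith

theorem forces1 (c₀ r : ℕ) (hc₀ : 1 ≤ c₀) : Forces c₀ (r + 2) (pat1 r) := by
  refine forces_of c₀ r (r + 2) hc₀ (pat1 r) true
    fun b hb L => ⟨6 * c₀ * L, _, _, _, geo_inc_D hb (6 * c₀) L, ?_, ?_⟩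
  · intro W hW a
    unfold XD
    exact (dvd_neg).2 (hW _)
  · intro N A s hA hG hM hin hse hR
    have hEX : ∀ i, EX true (fun a _ => 6 * c₀ * L + (6 * c₀ - 1 - a)) A s i =
        ex1 (6 * c₀) (6 * c₀ * L) A s i := by
      intro i
      simp [EX, ex1]
    simp only [hEX]
    refine forced1 hA hG hM (fun i j hij hj hAA => by simpa using hin i j hij hj hAA) ?_ hR
    intro i j hi hj hAA
    obtain ⟨e, he, h1⟩ := hse i hi
    obtain ⟨e', he', h2⟩ := hse j hj
    rw [h1, h2]
    exact sfinc_mono L _ _ _ _ hAA he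

theorem forces2 (c₀ r : ℕ) (hc₀ : 1 ≤ c₀) : Forces c₀ (r + 2) (pat2 r) := by
  refine forces_of c₀ r (r + 2) hc₀ (pat2 r) false
    fun b hb L => ⟨6 * c₀ * L, _, _, _, geo_inc_D hb (6 * c₀) L, ?_, ?_⟩
  · intro W hW a
    unfold XD
    exact (dvd_neg).2 (hW _)
  · intro N A s hA hG hM hin hse hR
    have hEX : ∀ i, EX false (fun a _ => 6 * c₀ * L + (6 * c₀ - 1 - a)) A s i =
        ex2 (6 * c₀) (6 * c₀ * L) A s i := by
      intro i
      simp [EX, ex2]
    simp only [hEX]
    refine forced2 hA hG hM (fun i j hij hj hAA => by simpa using hin i j hij hj hAA) ?_ hR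
    intro i j hi hj hAA
    obtain ⟨e, he, h1⟩ := hse i hi
    obtain ⟨e', he', h2⟩ := hse j hj
    rw [h1, h2]
    exact sfinc_mono L _ _ _ _ hAA he

theorem forces3 (c₀ r : ℕ) (hc₀ : 1 ≤ c₀) : Forces c₀ (r + 1) (pat3 r) := by
  refine forces_of c₀ r (r + 1) hc₀ (pat3 r) true
    fun b hb L => ⟨6 * c₀ * L, _, _, _, geo_dec_I hb (6 * c₀) L, ?_, ?_⟩
  · intro W hW a
    exact hW _
  · intro N A s hA hG hM hin hse hR
    have hEX : ∀ i, EX true (fun _ a' => 6 * c₀ * L + a') A s i = ex3 (6 * c₀ * L) A s i := by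
      intro i
      simp [EX, ex3]
    simp only [hEX]
    refine forced3 hA hM (fun i j hij hj hAA => by simpa using hin i j hij hj hAA) ?_ hR
    intro i j hi hj hAA
    obtain ⟨e, he, h1⟩ := hse i hi
    obtain ⟨e', he', h2⟩ := hse j hj
    rw [h1, h2]
    have hi' := hG i hi
    have hj' := hG j hj
    exact sfinc_mono L _ _ _ _ (by omega) he'

theorem forces4 (c₀ r : ℕ) (hc₀ : 1 ≤ c₀) : Forces c₀ (r + 2) (pat4 r) := by
  refine forces_of c₀ r (r + 2) hc₀ (pat4 r) true
    fun b hb L => ⟨6 * c₀ * (L + 1), _, _, _, geo_inc_J hb (6 * c₀) L, ?_, ?_⟩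
  · intro W hW a
    exact hW _
  · intro N A s hA hG hM hin hse hR
    have hEX : ∀ i, EX true (fun _ a' => a' * (L + 1) + L) A s i = ex4 L A s i := by
      intro i
      simp [EX, ex4]
    simp only [hEX]
    exact forced4 hA hse (fun i j hij hj hAA => by simpa using hin i j hij hj hAA) hR

end Pool.Agent.TH29.GO
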