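import Pool.Agent.TH29.GO.Comb

set_option autoImplicit false

/-!
# Order patterns of gaps: configurations of groups of positions
-/

namespace Pool.Agent.TH29.GO

open Finset

/-- rapidly growing scale sequences -/
structure Scale (b : ℕ → ℤ) : Prop where
  pos : ∀ e, 1 ≤ b e
  grow : ∀ e, 8 * b e ≤ b (e + 1)

theorem Scale.lt8 {b : ℕ → ℤ} (hb : Scale b) : ∀ {e e' : ℕ}, e < e' → 8 * b e ≤ b e' := by
  intro e e' h
  induction e' with
  | zero => omega
  | succ n ih =>
    rcases Nat.lt_succ_iff_lt_or_eq.1 h with h1 | h1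
    · have h2 := ih h1
      have h3 := hb.grow n
      have h4 := hb.pos n
      linarith
    · subst h1
      exact hb.grow e

theorem Scale.le {b : ℕ → ℤ} (hb : Scale b) {e e' : ℕ} (h : e ≤ e') : b e ≤ b e' := by
  rcases h.lt_or_eq with h1 | h1
  · have := hb.lt8 h1
    have := hb.pos e
    linarith
  · rw [h1]

theorem Scale.lt_of {b : ℕ → ℤ} (hb : Scale b) {e e' : ℕ} (h : b e < b e') : e < e' := by
  by_contra hcon
  have := hb.le (not_lt.1 hcon)
  linarith

/-- consecutive elements of `P` whose gaps have the order pattern `σ`, in scales -/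
def Window (b : ℕ → ℤ) (k : ℕ) (σ : ℕ → ℕ) (P : Finset ℤ) : Prop :=
  ∃ (x : ℕ → ℤ) (E : ℕ → ℕ), (∀ i j, i < j → j ≤ k → x i < x j) ∧ (∀ i ≤ k, x i ∈ P) ∧
    (∀ y ∈ P, x 0 ≤ y → y ≤ x k → ∃ i ≤ k, y = x i) ∧
    (∀ i < k, b (E i) ≤ 2 * (x (i + 1) - x i) ∧ x (i + 1) - x i ≤ 2 * b (E i)) ∧
    ∀ i j, i < k → j < k → σ i < σ j → E i < E j

def ep (d : Bool) : ℤ := if d then 1 else -1

def EX (d : Bool) (top : ℕ → ℕ → ℕ) (A s : ℕ → ℕ) (i : ℕ) : ℕ :=
  if A i = A (i + 1) then (if d then s (i + 1) else s i) else top (A i) (A (i + 1))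

/-- the geometry of a configuration of groups -/
structure Geo (b : ℕ → ℤ) (G L M : ℕ) (X : ℕ → ℤ) (sf top : ℕ → ℕ → ℕ) : Prop where
  sf_lt : ∀ a e, a < G → e < L → sf a e < M
  sf_mono : ∀ a e e', e < e' → sf a e < sf a e'
  sf_top : ∀ a a' e, a < a' → a' < G → e < L → sf a e < top a a' ∧ sf a' e < top a a'
  X_lo : ∀ a a', a < a' → a' < G → 7 * b (top a a') ≤ 8 * (X a' - X a)
  X_hi : ∀ a a', a < a' → a' < G → X a' - X a ≤ b (top a a')

def pt (b : ℕ → ℤ) (X : ℕ → ℤ) (sf : ℕ → ℕ → ℕ) (d : Bool) (a e : ℕ) : ℤ := X a + ep d * b (sf a e)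

section
variable {b : ℕ → ℤ} {G L M : ℕ} {X : ℕ → ℤ} {sf top : ℕ → ℕ → ℕ}

theorem gap_out (hb : Scale b) (hg : Geo b G L M X sf top) (d : Bool) {a a' e e' : ℕ}
    (h : a < a') (ha : a' < G) (he : e < L) (he' : e' < L) :
    b (top a a') ≤ 2 * (pt b X sf d a' e' - pt b X sf d a e) ∧
      pt b X sf d a' e' - pt b X sf d a e ≤ 2 * b (top a a') := by
  have h1 := hg.X_lo a a' h ha
  have h2 := hg.X_hi a a' h ha
  have h4 : 8 * b (sf a e) ≤ b (top a a') := hb.lt8 (hg.sf_top a a' e h ha he).1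
  have h5 : 8 * b (sf a' e') ≤ b (top a a') := hb.lt8 (hg.sf_top a a' e' h ha he').2
  have h6 := hb.pos (sf a e)
  have h7 := hb.pos (sf a' e')
  unfold pt ep
  cases d
  · simp only [Bool.false_eq_true, if_false]
    constructor <;> linarith
  · simp only [if_true]
    constructor <;> linarith

theorem pt_lt_of_grp (hb : Scale b) (hg : Geo b G L M X sf top) (d : Bool) {a a' e e' : ℕ}
    (h : a < a') (ha : a' < G) (he : e < L) (he' : e' < L) :
    pt b X sf d a e < pt b X sf d a' e' := by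
  have h1 := (gap_out hb hg d h ha he he').1
  have h2 := hb.pos (top a a')
  linarith

theorem grp_unique (hb : Scale b) (hg : Geo b G L M X sf top) (d : Bool) {a a' e e' : ℕ}
    (ha : a < G) (ha' : a' < G) (he : e < L) (he' : e' < L)
    (h : pt b X sf d a e = pt b X sf d a' e') : a = a' := by
  rcases lt_trichotomy a a' with h1 | h1 | h1
  · have := pt_lt_of_grp hb hg d h1 ha' he he'
    omega
  · exact h1
  · have := pt_lt_of_grp hb hg d h1 ha he' he
    omega

theorem pt_inj (hb : Scale b) (hg : Geo b G L M X sf top) (d : Bool) {a a' e e' : ℕ}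
    (ha : a < G) (ha' : a' < G) (he : e < L) (he' : e' < L)
    (h : pt b X sf d a e = pt b X sf d a' e') : a = a' ∧ e = e' := by
  have h1 := grp_unique hb hg d ha ha' he he' h
  subst h1
  refine ⟨rfl, ?_⟩
  have h2 : b (sf a e) = b (sf a e') := by
    unfold pt ep at h
    cases d <;> simp at h <;> exact h
  rcases lt_trichotomy e e' with h3 | h3 | h3
  · have h4 := hb.lt8 (hg.sf_mono a e e' h3)
    have h5 := hb.pos (sf a e)
    linarith
  · exact h3
  · have h4 := hb.lt8 (hg.sf_mono a e' e h3)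
    have h5 := hb.pos (sf a e')
    linarith

theorem window_of_geo (hb : Scale b) (hg : Geo b G L M X sf top) (d : Bool) (k : ℕ) (σ : ℕ → ℕ)
    (r : ℕ) (P : Finset ℤ) (hP : ∀ y ∈ P, ∃ a e, a < G ∧ e < L ∧ y = pt b X sf d a e)
    (hrich : ∃ a1 a2 a3 : ℕ, a1 < a2 ∧ a2 < a3 ∧ a3 < G ∧
      (∃ Q1 ⊆ P, r + 2 ≤ Q1.card ∧ ∀ y ∈ Q1, ∃ e < L, y = pt b X sf d a1 e) ∧
      (∃ Q2 ⊆ P, r + 2 ≤ Q2.card ∧ ∀ y ∈ Q2, ∃ e < L, y = pt b X sf d a2 e) ∧
      (∃ Q3 ⊆ P, r + 2 ≤ Q3.card ∧ ∀ y ∈ Q3, ∃ e < L, y = pt b X sf d a3 e))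
    (hcomb : ∀ (N : ℕ) (A s : ℕ → ℕ), (∀ i j, i ≤ j → j < N → A i ≤ A j) → (∀ i, i < N → A i < G) →
      (∀ i, i < N → s i < M) →
      (∀ i j, i < j → j < N → A i = A j → if d then s i < s j else s j < s i) →
      (∀ i, i < N → ∃ e < L, s i = sf (A i) e) → Rich r N A →
      ∃ w, w + k < N ∧ ∀ i j, i < k → j < k → σ i < σ j → EX d top A s (w + i) < EX d top A s (w + j)) :
    Window b k σ P := by
  classical
  obtain ⟨N, hN⟩ : ∃ N, N = P.card := ⟨_, rfl⟩
  set f := P.orderEmbOfFin hN.symm with hf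
  set φ : ℕ → ℤ := fun i => if h : i < N then f ⟨i, h⟩ else 0 with hφ
  have hφP : ∀ i, i < N → φ i ∈ P := by
    intro i hi
    simp only [hφ, dif_pos hi]
    exact P.orderEmbOfFin_mem hN.symm _
  have hφlt : ∀ i j, i < j → j < N → φ i < φ j := by
    intro i j hij hj
    simp only [hφ, dif_pos hj, dif_pos (hij.trans hj)]
    exact f.strictMono (by simpa using hij)
  have hφle : ∀ i j, i ≤ j → j < N → φ i ≤ φ j := by
    intro i j hij hj
    rcases hij.lt_or_eq with h | h
    · exact (hφlt i j h hj).le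
    · rw [h]
  have hφsurj : ∀ y ∈ P, ∃ i, i < N ∧ φ i = y := by
    intro y hy
    have h1 : y ∈ Set.range f := by
      rw [hf, P.range_orderEmbOfFin hN.symm]
      exact hy
    obtain ⟨⟨i, hi⟩, h2⟩ := h1
    refine ⟨i, hi, ?_⟩
    simp only [hφ, dif_pos hi]
    exact h2
  have hadr : ∀ i, ∃ ae : ℕ × ℕ, i < N → ae.1 < G ∧ ae.2 < L ∧ φ i = pt b X sf d ae.1 ae.2 := by
    intro i
    by_cases hi : i < N
    · obtain ⟨a, e, h1, h2, h3⟩ := hP (φ i) (hφP i hi)
      exact ⟨(a, e), fun _ => ⟨h1, h2, h3⟩⟩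
    · exact ⟨(0, 0), fun h => absurd h hi⟩
  choose adr hadr using hadr
  set A : ℕ → ℕ := fun i => (adr i).1 with hAdef
  set s : ℕ → ℕ := fun i => sf (adr i).1 (adr i).2 with hsdef
  have hAG : ∀ i, i < N → A i < G := fun i hi => (hadr i hi).1
  have hAmono : ∀ i j, i ≤ j → j < N → A i ≤ A j := by
    intro i j hij hj
    by_contra hcon
    have h1 := hadr i (lt_of_le_of_lt hij hj)
    have h2 := hadr j hj
    have h3 := pt_lt_of_grp hb hg d (not_le.1 hcon) h1.1 h2.2.1 h1.2.1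
    rw [← h1.2.2, ← h2.2.2] at h3
    have := hφle i j hij hj
    linarith
  have hsM : ∀ i, i < N → s i < M := fun i hi => hg.sf_lt _ _ (hadr i hi).1 (hadr i hi).2.1
  have hpt : ∀ i, i < N → φ i = X (A i) + ep d * b (s i) := fun i hi => (hadr i hi).2.2
  have hin : ∀ i j, i < j → j < N → A i = A j → if d then s i < s j else s j < s i := by
    intro i j hij hj hAA
    have h1 := hpt i (hij.trans hj)
    have h2 := hpt j hj
    have h3 := hφlt i j hij hj
    rw [h1, h2, hAA] at h3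
    cases hd : d
    · rw [if_neg (by simp)]
      rw [hd] at h3
      simp only [ep, Bool.false_eq_true, if_false] at h3
      exact hb.lt_of (by linarith)
    · rw [if_pos (by simp)]
      rw [hd] at h3
      simp only [ep, if_true] at h3
      exact hb.lt_of (by linarith)
  have hse : ∀ i, i < N → ∃ e < L, s i = sf (A i) e := fun i hi => ⟨_, (hadr i hi).2.1, rfl⟩
  have hcard : ∀ (a c : ℕ), a < G → (∃ Q ⊆ P, c ≤ Q.card ∧ ∀ y ∈ Q, ∃ e < L, y = pt b X sf d a e) →
      c ≤ ((range N).filter (fun i => A i = a)).card := by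
    rintro a c ha ⟨Q, hQ, hc, hQa⟩
    refine hc.trans ?_
    have hsub : Q ⊆ ((range N).filter (fun i => A i = a)).image φ := by
      intro y hy
      obtain ⟨i, hi, rfl⟩ := hφsurj y (hQ hy)
      obtain ⟨e, he, h1⟩ := hQa _ hy
      refine mem_image.2 ⟨i, mem_filter.2 ⟨mem_range.2 hi, ?_⟩, rfl⟩
      have h2 := hadr i hi
      exact grp_unique hb hg d h2.1 ha h2.2.1 he (h2.2.2.symm.trans h1)
    exact (card_le_card hsub).trans card_image_le
  obtain ⟨a1, a2, a3, h12, h23, h3G, q1, q2, q3⟩ := hrich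
  have hR : Rich r N A := ⟨a1, a2, a3, h12, h23, hcard a1 _ (by omega) q1, hcard a2 _ (by omega) q2,
    hcard a3 _ h3G q3⟩
  obtain ⟨w, hw, hpat⟩ := hcomb N A s hAmono hAG hsM hin hse hR
  refine ⟨fun i => φ (w + i), fun i => EX d top A s (w + i), ?_, ?_, ?_, ?_, hpat⟩
  · intro i j hij hj
    exact hφlt _ _ (by omega) (by omega)
  · intro i hi
    exact hφP _ (by omega)
  · intro y hy h1 h2
    obtain ⟨j, hj, rfl⟩ := hφsurj y hy
    have h3 : w ≤ j := by
      by_contra hcon
      have := hφlt j (w + 0) (by omega) (by omega)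
      linarith
    have h4 : j ≤ w + k := by
      by_contra hcon
      have := hφlt (w + k) j (by omega) hj
      linarith
    refine ⟨j - w, by omega, ?_⟩
    show φ j = φ (w + (j - w))
    rw [show w + (j - w) = j by omega]
  · intro i hi
    have hi1 : w + i < N := by omega
    have hi2 : w + i + 1 < N := by omega
    show b (EX d top A s (w + i)) ≤ 2 * (φ (w + (i + 1)) - φ (w + i)) ∧
      φ (w + (i + 1)) - φ (w + i) ≤ 2 * b (EX d top A s (w + i))
    rw [show w + (i + 1) = w + i + 1 by ring]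
    by_cases hAA : A (w + i) = A (w + i + 1)
    · have h1 := hpt (w + i) hi1
      have h2 := hpt (w + i + 1) hi2
      have h3 := hin (w + i) (w + i + 1) (by omega) hi2 hAA
      unfold EX
      rw [if_pos hAA, h1, h2, hAA]
      cases hd : d
      · rw [hd] at h3
        simp only [Bool.false_eq_true, if_false] at h3 ⊢
        have h4 := hb.lt8 h3
        have h5 := hb.pos (s (w + i + 1))
        simp only [ep, Bool.false_eq_true, if_false]
        constructor <;> linarith
      · rw [hd] at h3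
        simp only [if_true] at h3 ⊢
        have h4 := hb.lt8 h3
        have h5 := hb.pos (s (w + i))
        simp only [ep, if_true]
        constructor <;> linarith
    · have h1 := hadr (w + i) hi1
      have h2 := hadr (w + i + 1) hi2
      have h3 : A (w + i) < A (w + i + 1) := lt_of_le_of_ne (hAmono _ _ (by omega) hi2) hAA
      have h4 := gap_out hb hg d h3 h2.1 h1.2.1 h2.2.1
      unfold EX
      rw [if_neg hAA, h1.2.2, h2.2.2]
      exact h4

end

end Pool.Agent.TH29.GO
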