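import Pool.Agent.TH29.GO.Force

set_option autoImplicit false

/-!
# The orderings which are forced
-/

namespace Pool.Agent.TH29.GO

/-- Six orderings of `k` gaps: the gap number `i < k` has the rank `o i`. -/
def orders6 (k : ℕ) : List (ℕ → ℕ) :=
  [fun i => i,
   fun i => if i + 2 < k then i else 2 * k - 3 - i,
   fun i => if i + 2 < k then k - 3 - i else 2 * k - 3 - i,
   fun i => if i + 1 < k then i + 1 else 0,
   fun i => if i + 1 < k then k - 2 - i else k - 1,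
   fun i => if i = 0 then 0 else if i = 1 then k - 1 else i - 1]

theorem forces_orders6 (c₀ : ℕ) (hc₀ : 1 ≤ c₀) (k : ℕ) (hk : 3 ≤ k) :
    ∀ o ∈ orders6 k, Forces c₀ k o := by
  intro o ho
  simp only [orders6, List.mem_cons, List.not_mem_nil, or_false] at ho
  rcases ho with rfl | rfl | rfl | rfl | rfl | rfl
  · -- increasing
    refine (forces1 c₀ (k - 1) hc₀).restrict (k' := k) (by omega) ?_
    intro i j hi hj hij
    unfold pat1
    split_ifs <;> omega
  · refine (forces1 c₀ (k - 2) hc₀).restrict (k' := k) (by omega) ?_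
    intro i j hi hj hij
    unfold pat1
    split_ifs at hij ⊢ <;> omega
  · refine (forces2 c₀ (k - 2) hc₀).restrict (k' := k) (by omega) ?_
    intro i j hi hj hij
    unfold pat2
    split_ifs at hij ⊢ <;> omega
  · refine (forces3 c₀ (k - 1) hc₀).restrict (k' := k) (by omega) ?_
    intro i j hi hj hij
    unfold pat3
    split_ifs at hij ⊢ <;> omega
  · refine (forces2 c₀ (k - 1) hc₀).restrict (k' := k) (by omega) ?_
    intro i j hi hj hij
    unfold pat2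
    split_ifs at hij ⊢ <;> omega
  · refine (forces4 c₀ (k - 2) hc₀).restrict (k' := k) (by omega) ?_
    intro i j hi hj hij
    unfold pat4
    split_ifs at hij ⊢ <;> omega

/-- all the consequences for a property `Oc` of relations between the gaps -/
theorem orders_all (Oc : ∀ k : ℕ, (Fin k → Fin k → Prop) → Prop)
    (hOc : ∀ (k : ℕ) (σ : ℕ → ℕ) (lt : Fin k → Fin k → Prop), (∀ c₀, 1 ≤ c₀ → Forces c₀ k σ) →
      (∀ i j, lt i j → σ i < σ j) → Oc k lt) :
    (∀ k : ℕ, 3 ≤ k → ∀ o ∈ orders6 k, Oc k (fun i j : Fin k => o i < o j) ∧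
      Oc k (fun i j : Fin k => o (k - 1 - i) < o (k - 1 - j))) ∧
    (∀ σ : Equiv.Perm (Fin 3), Oc 3 (fun i j : Fin 3 => σ i < σ j)) ∧
    (∀ ε : Fin 3 → Bool, Oc 4 (fun i j : Fin 4 => ∃ l : Fin 3,
      (ε l = true ∧ i = l.castSucc ∧ j = l.succ) ∨
        (ε l = false ∧ i = l.succ ∧ j = l.castSucc))) := by
  have hmir : ∀ (k : ℕ), 3 ≤ k → ∀ o ∈ orders6 k, ∀ c₀, 1 ≤ c₀ →
      Forces c₀ k (fun i => o (k - 1 - i)) := fun k hk o ho c₀ hc₀ =>
    (forces_orders6 c₀ hc₀ k hk o ho).mirror fun _ _ => rfl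
  refine ⟨?_, ?_, ?_⟩
  · intro k hk o ho
    exact ⟨hOc k o _ (fun c₀ hc₀ => forces_orders6 c₀ hc₀ k hk o ho) fun i j h => h,
      hOc k (fun i => o (k - 1 - i)) _ (hmir k hk o ho) fun i j h => h⟩
  · intro σ
    have h3 : ∀ o ∈ orders6 3, ∀ lt : Fin 3 → Fin 3 → Prop, (∀ i j, lt i j → o i < o j) →
        Oc 3 lt := fun o ho lt hlt =>
      hOc 3 o lt (fun c₀ hc₀ => forces_orders6 c₀ hc₀ 3 le_rfl o ho) hlt
    have h3' : ∀ o ∈ orders6 3, ∀ lt : Fin 3 → Fin 3 → Prop,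
        (∀ i j, lt i j → o (3 - 1 - i) < o (3 - 1 - j)) → Oc 3 lt := fun o ho lt hlt =>
      hOc 3 (fun i => o (3 - 1 - i)) lt (hmir 3 le_rfl o ho) hlt
    simp only [orders6, List.forall_mem_cons, List.not_mem_nil, false_imp_iff, implies_true,
      and_true] at h3 h3'
    obtain ⟨f1, f2, f3, f4, f5, f6⟩ := h3
    obtain ⟨g1, g2, g3, g4, g5, g6⟩ := h3'
    have key : (∀ i j : Fin 3, σ i < σ j → (i : ℕ) < j) ∨
        (∀ i j : Fin 3, σ i < σ j → (if (i : ℕ) + 2 < 3 then (i : ℕ) else 2 * 3 - 3 - i) <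
          (if (j : ℕ) + 2 < 3 then (j : ℕ) else 2 * 3 - 3 - j)) ∨
        (∀ i j : Fin 3, σ i < σ j → (if (i : ℕ) + 1 < 3 then (i : ℕ) + 1 else 0) <
          (if (j : ℕ) + 1 < 3 then (j : ℕ) + 1 else 0)) ∨
        (∀ i j : Fin 3, σ i < σ j → (if (i : ℕ) + 1 < 3 then 3 - 2 - (i : ℕ) else 3 - 1) <
          (if (j : ℕ) + 1 < 3 then 3 - 2 - (j : ℕ) else 3 - 1)) ∨
        (∀ i j : Fin 3, σ i < σ j → 3 - 1 - (i : ℕ) < 3 - 1 - j) ∨
        (∀ i j : Fin 3, σ i < σ j →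
          (if 3 - 1 - (i : ℕ) + 1 < 3 then 3 - 2 - (3 - 1 - (i : ℕ)) else 3 - 1) <
          (if 3 - 1 - (j : ℕ) + 1 < 3 then 3 - 2 - (3 - 1 - (j : ℕ)) else 3 - 1)) := by
      revert σ
      decide
    rcases key with h | h | h | h | h | h
    · exact f1 _ h
    · exact f2 _ h
    · exact f4 _ h
    · exact f5 _ h
    · exact g1 _ h
    · exact g5 _ h
  · intro ε
    have h4 : ∀ o ∈ orders6 4, ∀ lt : Fin 4 → Fin 4 → Prop, (∀ i j, lt i j → o i < o j) →
        Oc 4 lt := fun o ho lt hlt =>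
      hOc 4 o lt (fun c₀ hc₀ => forces_orders6 c₀ hc₀ 4 (by norm_num) o ho) hlt
    have h4' : ∀ o ∈ orders6 4, ∀ lt : Fin 4 → Fin 4 → Prop,
        (∀ i j, lt i j → o (4 - 1 - i) < o (4 - 1 - j)) → Oc 4 lt := fun o ho lt hlt =>
      hOc 4 (fun i => o (4 - 1 - i)) lt (hmir 4 (by norm_num) o ho) hlt
    simp only [orders6, List.forall_mem_cons, List.not_mem_nil, false_imp_iff, implies_true,
      and_true] at h4 h4'
    obtain ⟨f1, f2, f3, f4, f5, f6⟩ := h4
    obtain ⟨g1, g2, g3, g4, g5, g6⟩ := h4'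
    have red : ∀ {τ : ℕ → ℕ}, (∀ l : Fin 3, (ε l = true → τ (l : ℕ) < τ ((l : ℕ) + 1)) ∧
        (ε l = false → τ ((l : ℕ) + 1) < τ (l : ℕ))) →
        ∀ i j : Fin 4, (∃ l : Fin 3, (ε l = true ∧ i = l.castSucc ∧ j = l.succ) ∨
            (ε l = false ∧ i = l.succ ∧ j = l.castSucc)) → τ i < τ j := by
      intro τ hl
      rintro i j ⟨l, ⟨h1, rfl, rfl⟩ | ⟨h1, rfl, rfl⟩⟩
      · exact (hl l).1 h1
      · exact (hl l).2 h1
    rcases h0 : ε 0 with _ | _ <;> rcases h1 : ε 1 with _ | _ <;> rcases h2 : ε 2 with _ | _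
    · refine g1 _ (red (τ := fun i => 4 - 1 - i) fun l => ?_)
      fin_cases l <;> simp [h0, h1, h2]
    · refine f5 _ (red (τ := fun i => if i + 1 < 4 then 4 - 2 - i else 4 - 1) fun l => ?_)
      fin_cases l <;> simp [h0, h1, h2]
    · refine f3 _ (red (τ := fun i => if i + 2 < 4 then 4 - 3 - i else 2 * 4 - 3 - i) fun l => ?_)
      fin_cases l <;> simp [h0, h1, h2]
    · refine g5 _ (red (τ := fun i => if 4 - 1 - i + 1 < 4 then 4 - 2 - (4 - 1 - i) else 4 - 1)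
        fun l => ?_)
      fin_cases l <;> simp [h0, h1, h2]
    · refine g4 _ (red (τ := fun i => if 4 - 1 - i + 1 < 4 then 4 - 1 - i + 1 else 0) fun l => ?_)
      fin_cases l <;> simp [h0, h1, h2]
    · refine g3 _ (red (τ := fun i => if 4 - 1 - i + 2 < 4 then 4 - 3 - (4 - 1 - i)
        else 2 * 4 - 3 - (4 - 1 - i)) fun l => ?_)
      fin_cases l <;> simp [h0, h1, h2]
    · refine f2 _ (red (τ := fun i => if i + 2 < 4 then i else 2 * 4 - 3 - i) fun l => ?_)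
      fin_cases l <;> simp [h0, h1, h2]
    · refine f1 _ (red (τ := fun i => i) fun l => ?_)
      fin_cases l <;> simp [h0, h1, h2]

end Pool.Agent.TH29.GO
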