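import Pool.Agent.TH29.GO.Force
import Pool.Agent.H732R3.HausQ

set_option autoImplicit false

/-!
# Order patterns of consecutive prime gaps: from forced patterns to primes
-/

namespace Pool.Agent.TH29.GO

open Finset Pool.Agent.H461R2.PD Pool.Agent.H602R3.Tup Pool.Agent.H732R3.ExactE
  Pool.Agent.H732R3.Haus Pool.Agent.H732R3.HausQ

/-- the number of primes below the next prime -/
theorem count_next {p p' : ℕ} (hp : p.Prime) (h : p < p')
    (hno : ∀ s, p < s → s < p' → ¬ s.Prime) :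
    Nat.count Nat.Prime p' = Nat.count Nat.Prime p + 1 := by
  have h1 : ∀ t, p + 1 + t ≤ p' → Nat.count Nat.Prime (p + 1 + t) = Nat.count Nat.Prime p + 1 := by
    intro t
    induction t with
    | zero =>
      intro _
      rw [Nat.add_zero, Nat.count_succ, if_pos hp]
    | succ t ih =>
      intro ht
      rw [← add_assoc, Nat.count_succ, ih (by omega), if_neg (hno _ (by omega) (by omega))]
  have h2 := h1 (p' - (p + 1)) (by omega)
  rwa [show p + 1 + (p' - (p + 1)) = p' by omega] at h2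

/-- the gap after the prime number `m` -/
noncomputable def gap (m : ℕ) : ℕ := Nat.nth Nat.Prime (m + 1) - Nat.nth Nat.Prime m

/-- the order pattern occurs -/
def OccursN (k : ℕ) (σ : ℕ → ℕ) : Prop :=
  ∀ (F : ℕ → ℕ) (q a : ℕ), 1 ≤ q → a.Coprime q → ∃ C : ℕ,
    {n : ℕ | (∀ i, i ≤ k → Nat.nth Nat.Prime (n + i) ≡ a [MOD q]) ∧
      Nat.nth Nat.Prime (n + k) ≤ Nat.nth Nat.Prime n + C ∧
      ∀ i j, i < k → j < k → σ i < σ j → F (gap (n + i)) < gap (n + j)}.Infinite

/-- the scale sequence belonging to `F`, `q` and `W` -/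
def bs (F : ℕ → ℕ) (q W : ℕ) : ℕ → ℕ
  | 0 => W
  | n + 1 => W * (8 * bs F q W n + 2 * ∑ y ∈ range (2 * q * bs F q W n + 1), (F y + 1))

theorem bs_dvd (F : ℕ → ℕ) (q W e : ℕ) : W ∣ bs F q W e := by
  cases e with
  | zero => exact dvd_rfl
  | succ n => exact Dvd.intro _ rfl

theorem bs_pos (F : ℕ → ℕ) (q W : ℕ) (hW : 1 ≤ W) (e : ℕ) : 1 ≤ bs F q W e := by
  induction e with
  | zero => exact hW
  | succ n ih =>
    unfold bs
    nlinarith [Nat.zero_le (2 * ∑ y ∈ range (2 * q * bs F q W n + 1), (F y + 1))]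

theorem bs_grow (F : ℕ → ℕ) (q W : ℕ) (hW : 1 ≤ W) (e : ℕ) :
    8 * bs F q W e ≤ bs F q W (e + 1) := by
  show 8 * bs F q W e ≤ W * (8 * bs F q W e + 2 * ∑ y ∈ range (2 * q * bs F q W e + 1), (F y + 1))
  nlinarith [Nat.zero_le (2 * ∑ y ∈ range (2 * q * bs F q W e + 1), (F y + 1)),
    Nat.zero_le (bs F q W e)]

theorem bs_F (F : ℕ → ℕ) (q W : ℕ) (hW : 1 ≤ W) (e y : ℕ) (hy : y ≤ 2 * q * bs F q W e) :
    2 * (F y + 1) ≤ bs F q W (e + 1) := by
  have h1 : F y + 1 ≤ ∑ y ∈ range (2 * q * bs F q W e + 1), (F y + 1) :=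
    single_le_sum (f := fun y => F y + 1) (fun _ _ => Nat.zero_le _) (mem_range.2 (by omega))
  show 2 * (F y + 1) ≤ W * (8 * bs F q W e + 2 * ∑ y ∈ range (2 * q * bs F q W e + 1), (F y + 1))
  nlinarith [Nat.zero_le (bs F q W e)]

theorem scale_bs (F : ℕ → ℕ) (q W : ℕ) (hW : 1 ≤ W) : Scale (fun e => (bs F q W e : ℤ)) where
  pos := fun e => by exact_mod_cast bs_pos F q W hW e
  grow := fun e => by exact_mod_cast bs_grow F q W hW e

theorem occurs_of (hQ : Quarter) {k : ℕ} {σ : ℕ → ℕ} (h : Forces 4 k σ) : OccursN k σ := by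
  classical
  obtain ⟨T, -, hT⟩ := h
  obtain ⟨K, hK, hq⟩ := hQ T
  intro F q a hq1 hcop
  set W : ℕ := (T * K).factorial with hW
  have hW1 : 1 ≤ W := Nat.factorial_pos _
  obtain ⟨off, hinj, hdvd, hforce⟩ := hT K hK (fun e => (bs F q W e : ℤ)) (scale_bs F q W hW1) (W : ℤ)
    (fun e => by exact_mod_cast bs_dvd F q W e)
  have hr : IsCoprime (a : ℤ) (q : ℤ) := Nat.isCoprime_iff_coprime.2 hcop
  have hadm : ∀ p : ℕ, p.Prime → ∃ m : ℤ, ∀ g i, ¬ ((p : ℤ) ∣ m + off g i) := by
    intro p hp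
    rcases Nat.lt_or_ge (T * K) p with h | h
    · exact exists_shift_int hp h off
    · refine ⟨1, fun g i hd => ?_⟩
      have hpW : (p : ℤ) ∣ (W : ℤ) := by exact_mod_cast (Nat.dvd_factorial hp.pos h)
      exact (Nat.prime_iff_prime_int.1 hp).not_isUnit
        (isUnit_of_dvd_one ((dvd_add_left (hpW.trans (hdvd g i))).1 hd))
  set R : ℕ := ∑ y ∈ Off off, y.natAbs with hR
  obtain ⟨P, S, c, hP, hS, hc, hE⟩ := exact_Q hq q (a : ℤ) hq1 hr off hinj hadm R
  have hPR : ∀ y ∈ P, |y| ≤ R := by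
    intro y hy
    have h1 : y.natAbs ≤ ∑ y ∈ Off off, y.natAbs :=
      single_le_sum (f := fun y : ℤ => y.natAbs) (fun _ _ => Nat.zero_le _) (hP hy)
    rw [Int.abs_eq_natAbs]
    exact_mod_cast h1
  obtain ⟨x, E, k1, k2, k3, k4, k5⟩ := hforce P S c (by
    intro y hy
    obtain ⟨z, -, hz⟩ := mem_image.1 (hP hy)
    exact ⟨z.1, z.2, hz.symm⟩) hS hc
  have hqz : (0 : ℤ) < q := by exact_mod_cast hq1
  refine ⟨((q : ℤ) * (x k - x 0)).toNat, ?_⟩
  -- the primes
  have hprime : ∀ n : ℕ, EQ q (a : ℤ) P R n → ∀ i, i ≤ k → 0 ≤ (n : ℤ) + q * x i ∧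
      ((n : ℤ) + q * x i).toNat.Prime := by
    intro n hn i hi
    obtain ⟨p, hp1, hp2⟩ := (hn.2 (q * x i) (by
      rw [abs_mul, abs_of_pos hqz]
      exact mul_le_mul_of_nonneg_left (hPR _ (k2 i hi)) hqz.le)).2 ⟨x i, k2 i hi, rfl⟩
    rw [← hp2]
    exact ⟨by positivity, by rw [Int.toNat_natCast]; exact hp1⟩
  have hno : ∀ n : ℕ, EQ q (a : ℤ) P R n → ∀ i, i < k → ∀ s : ℕ, ((n : ℤ) + q * x i).toNat < s →
      s < ((n : ℤ) + q * x (i + 1)).toNat → ¬ s.Prime := by
    intro n hn i hi s h1 h2 hs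
    have e1 := (hprime n hn i hi.le).1
    have e2 := (hprime n hn (i + 1) hi).1
    have h1' : (n : ℤ) + q * x i < s := by
      have : (((n : ℤ) + q * x i).toNat : ℤ) < s := by exact_mod_cast h1
      rwa [Int.toNat_of_nonneg e1] at this
    have h2' : (s : ℤ) < n + q * x (i + 1) := by
      have : (s : ℤ) < (((n : ℤ) + q * x (i + 1)).toNat : ℤ) := by exact_mod_cast h2
      rwa [Int.toNat_of_nonneg e2] at this
    have h3 := abs_le.1 (hPR _ (k2 i hi.le))
    have h4 := abs_le.1 (hPR _ (k2 (i + 1) hi))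
    have h5 : (q : ℤ) * x (i + 1) ≤ q * R := mul_le_mul_of_nonneg_left h4.2 hqz.le
    have h6 : (q : ℤ) * (-R) ≤ q * x i := mul_le_mul_of_nonneg_left h3.1 hqz.le
    obtain ⟨y, hy, h7⟩ := (hn.2 ((s : ℤ) - n) (abs_le.2 ⟨by linarith, by linarith⟩)).1
      ⟨s, hs, by ring⟩
    have h8 : x i < y := by
      have : (q : ℤ) * x i < q * y := by linarith
      exact lt_of_mul_lt_mul_left this hqz.le
    have h9 : y < x (i + 1) := by
      have : (q : ℤ) * y < q * x (i + 1) := by linarith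
      exact lt_of_mul_lt_mul_left this hqz.le
    have h0i : x 0 ≤ x i := by
      rcases Nat.eq_zero_or_pos i with h | h
      · rw [h]
      · exact (k1 0 i h hi.le).le
    have hik : x (i + 1) ≤ x k := by
      rcases (Nat.succ_le_of_lt hi).lt_or_eq with h | h
      · exact (k1 (i + 1) k h le_rfl).le
      · rw [← h]
    obtain ⟨j, hj, h10⟩ := k3 y hy (by linarith) (by linarith)
    rw [h10] at h8 h9
    rcases Nat.lt_or_ge i j with h | h
    · rcases (Nat.succ_le_of_lt h).lt_or_eq with h' | h'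
      · have := k1 (i + 1) j h' hj
        linarith
      · rw [← h'] at h9
        exact lt_irrefl _ h9
    · rcases h.lt_or_eq with h' | h'
      · have := k1 j i h' hi.le
        linarith
      · rw [h'] at h8
        exact lt_irrefl _ h8
  have hnth : ∀ n : ℕ, EQ q (a : ℤ) P R n → ∀ i, i ≤ k →
      Nat.nth Nat.Prime (Nat.count Nat.Prime ((n : ℤ) + q * x 0).toNat + i) =
        ((n : ℤ) + q * x i).toNat := by
    intro n hn i
    induction i with
    | zero =>
      intro _
      rw [Nat.add_zero]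
      exact Nat.nth_count (hprime n hn 0 (Nat.zero_le _)).2
    | succ i ih =>
      intro hi
      have h1 := ih (by omega)
      have hp := (hprime n hn i (by omega)).2
      have hp' := (hprime n hn (i + 1) hi).2
      have hlt : ((n : ℤ) + q * x i).toNat < ((n : ℤ) + q * x (i + 1)).toNat := by
        have e1 := (hprime n hn i (by omega)).1
        have e2 := (hprime n hn (i + 1) hi).1
        have h2 := mul_lt_mul_of_pos_left (k1 i (i + 1) (by omega) hi) hqz
        omega
      have h3 := count_next hp hlt (hno n hn i (by omega))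
      have h4 : Nat.count Nat.Prime ((n : ℤ) + q * x i).toNat =
          Nat.count Nat.Prime ((n : ℤ) + q * x 0).toNat + i := by
        rw [← h1, Nat.count_nth_of_infinite Nat.infinite_setOfPred_prime]
      rw [← add_assoc, ← h4, ← h3]
      exact Nat.nth_count hp'
  -- the set of the indices
  set f : ℕ → ℕ := fun n => Nat.count Nat.Prime ((n : ℤ) + q * x 0).toNat with hf
  have hfinj : Set.InjOn f {n : ℕ | EQ q (a : ℤ) P R n} := by
    intro n hn n' hn' hff
    have h1 := hnth n hn 0 (Nat.zero_le _)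
    have h2 := hnth n' hn' 0 (Nat.zero_le _)
    have h3 : Nat.count Nat.Prime ((n : ℤ) + q * x 0).toNat =
      Nat.count Nat.Prime ((n' : ℤ) + q * x 0).toNat := hff
    rw [h3, h2] at h1
    have e1 := (hprime n hn 0 (Nat.zero_le _)).1
    have e2 := (hprime n' hn' 0 (Nat.zero_le _)).1
    omega
  refine ((hE.image hfinj).mono ?_)
  rintro m ⟨n, hn, rfl⟩
  have hn : EQ q (a : ℤ) P R n := hn
  have hgap : ∀ i, i < k → (gap (f n + i) : ℤ) = q * (x (i + 1) - x i) := by
    intro i hi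
    unfold gap
    rw [add_assoc, hnth n hn i (by omega), hnth n hn (i + 1) (by omega)]
    have e1 := (hprime n hn i (by omega)).1
    have e2 := (hprime n hn (i + 1) hi).1
    have h2 := mul_lt_mul_of_pos_left (k1 i (i + 1) (by omega) hi) hqz
    have h3 : ((n : ℤ) + q * x i).toNat ≤ ((n : ℤ) + q * x (i + 1)).toNat := by omega
    rw [Nat.cast_sub h3, Int.toNat_of_nonneg e1, Int.toNat_of_nonneg e2]
    ring
  refine ⟨?_, ?_, ?_⟩
  · intro i hi
    rw [hnth n hn i hi]
    have e1 := (hprime n hn i hi).1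
    rw [← Int.natCast_modEq_iff, Int.toNat_of_nonneg e1]
    have h1 := hn.1
    have h2 : (n : ℤ) + q * x i ≡ n + 0 [ZMOD q] := by
      apply Int.ModEq.add_left
      exact (Int.modEq_zero_iff_dvd).2 (Dvd.intro _ rfl)
    rw [add_zero] at h2
    exact h2.trans h1
  · have h0 := hnth n hn 0 (Nat.zero_le _)
    rw [Nat.add_zero] at h0
    rw [hnth n hn k le_rfl, h0]
    have e1 := (hprime n hn 0 (Nat.zero_le _)).1
    have e2 := (hprime n hn k le_rfl).1
    have h2 : (q : ℤ) * x 0 ≤ q * x k := by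
      rcases Nat.eq_zero_or_pos k with h | h
      · rw [h]
      · exact (mul_lt_mul_of_pos_left (k1 0 k h le_rfl) hqz).le
    have h3 : 0 ≤ (q : ℤ) * (x k - x 0) := by linarith
    have h4 : (((n : ℤ) + q * x k).toNat : ℤ) ≤
        (((n : ℤ) + q * x 0).toNat + ((q : ℤ) * (x k - x 0)).toNat : ℕ) := by
      push_cast
      rw [Int.toNat_of_nonneg e1, Int.toNat_of_nonneg e2, Int.toNat_of_nonneg h3]
      linarith
    exact_mod_cast h4
  · intro i j hi hj hij
    have hEE := k5 i j hi hj hij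
    have g1 := hgap i hi
    have g2 := hgap j hj
    have w1 := (k4 i hi).2
    have w2 := (k4 j hj).1
    have hy : gap (f n + i) ≤ 2 * q * bs F q W (E i) := by
      have : (gap (f n + i) : ℤ) ≤ ((2 * q * bs F q W (E i) : ℕ) : ℤ) := by
        rw [g1]
        push_cast
        nlinarith
      exact_mod_cast this
    have h1 := bs_F F q W hW1 (E i) _ hy
    have h2 : (bs F q W (E i + 1) : ℤ) ≤ bs F q W (E j) :=
      (scale_bs F q W hW1).le (Nat.succ_le_of_lt hEE)
    have h3 : (2 * (F (gap (f n + i)) + 1) : ℤ) ≤ bs F q W (E i + 1) := by exact_mod_cast h1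
    have hxj : 0 < x (j + 1) - x j := by
      have := k1 j (j + 1) (by omega) hj
      linarith
    have h4 : x (j + 1) - x j ≤ (q : ℤ) * (x (j + 1) - x j) := by
      have : (1 : ℤ) ≤ q := by exact_mod_cast hq1
      nlinarith
    have h5 : ((F (gap (f n + i)) : ℕ) : ℤ) < (gap (f n + j) : ℤ) := by
      rw [g2]
      have w2' : (bs F q W (E j) : ℤ) ≤ 2 * (x (j + 1) - x j) := w2
      linarith
    exact_mod_cast h5

end Pool.Agent.TH29.GO
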